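import Mathlib

/-!
# Non-monotonicity of the supremum of reachable cells for long-tape ITTMs

The machines `T_α` have tape length `α`, no ordinal parameters, and at limit times the state, the
head position and every bit are the inferior limits of the earlier ones (the head is at `0` if the
inferior limit of its positions is `α`).

* Upper bound: there are only countably many programs, so the supremum `θ` of the reachable cells
  is a countable ordinal for `α = ω₁`.
* Lower bound: a program with six states, `prog`, halts at cell `κ + 2` on every tape of length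
  `ω ^ κ`, if `κ` is a limit ordinal with `κ < ω ^ κ`. Its head only moves right. Every pass over
  the tape deletes those marks which are not limits of marks (after `ρ` passes the marks are the
  multiples of `ω ^ ρ`) and makes a bar of `1`s longer by one cell; the program stops at the end
  of the bar as soon as the marks have disappeared.
-/


namespace Pool.Agent.Results.MP_5db8c7_lc.LiminfStatesNotMonotone

open Ordinal Order Set

/-- The two directions in which the head can be moved. -/
inductive Dir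
  | left
  | right

/-- An ordinary Turing machine program: finitely many states `0, ..., n`, a start state, a halting
state, and a transition function. In one step the machine reads the three bits below its head
(tape `0` = input, tape `1` = work, tape `2` = output), changes its state, overwrites the three
bits and moves its head. -/
structure Program where
  n : ℕ
  start : Fin (n + 1)
  halt : Fin (n + 1)
  δ : Fin (n + 1) → (Fin 3 → Bool) → Fin (n + 1) × (Fin 3 → Bool) × Dir

/-- A configuration: current state, position of the head, and the bit in each cell of the three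
tapes. -/
structure Config (P : Program) where
  state : Fin (P.n + 1)
  head : Ordinal.{0}
  tape : Fin 3 → Ordinal.{0} → Bool

/-- The inferior limit of the values `f s` for times `s < t` (used at limit times `t`): the
supremum of all eventual lower bounds. -/
noncomputable def infLim {X : Type*} [ConditionallyCompleteLattice X] (t : Ordinal.{0})
    (f : (s : Ordinal.{0}) → s < t → X) : X :=
  sSup {m | ∃ s, s < t ∧ ∀ r (hr : r < t), s ≤ r → m ≤ f r hr}

/-- Moving the head left: from `μ + 1` to `μ`, and from a limit position (or from `0`) to `0`. -/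
noncomputable def moveLeft (μ : Ordinal.{0}) : Ordinal.{0} :=
  open Classical in if IsSuccPrelimit μ then 0 else pred μ

/-- One step of an ordinary Turing machine. -/
noncomputable def step (P : Program) (c : Config P) : Config P where
  state := (P.δ c.state fun i => c.tape i c.head).1
  head :=
    match (P.δ c.state fun i => c.tape i c.head).2.2 with
    | .left => moveLeft c.head
    | .right => c.head + 1
  tape := fun i => Function.update (c.tape i) c.head ((P.δ c.state fun i => c.tape i c.head).2.1 i)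

/-- The configuration at a limit time `t`: state, head position and every bit are the inferior
limits of the earlier ones, except that the head is at `0` if the inferior limit of its earlier
positions is the tape length `α`. -/
noncomputable def limitConfig (α : Ordinal.{0}) (P : Program) (t : Ordinal.{0})
    (c : (s : Ordinal.{0}) → s < t → Config P) : Config P where
  state := infLim t fun s hs => (c s hs).state
  head := open Classical in
    if infLim t (fun s hs => (c s hs).head) = α then 0 else infLim t fun s hs => (c s hs).head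
  tape := fun i μ => infLim t fun s hs => (c s hs).tape i μ

/-- The configuration at time `t` of the machine with tape length `α` running the program `P`,
started with all cells `0`. -/
noncomputable def run (α : Ordinal.{0}) (P : Program) (t : Ordinal.{0}) : Config P :=
  limitRecOn t ⟨P.start, 0, fun _ _ => false⟩ (fun _ c => step P c)
    (fun t _ c => limitConfig α P t c)

/-- The program `P` halts (reaches its halting state for the first time) with its head at the cell
`μ`. -/
def HaltsAt (α : Ordinal.{0}) (P : Program) (μ : Ordinal.{0}) : Prop :=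
  ∃ t, (run α P t).state = P.halt ∧ (∀ s < t, (run α P s).state ≠ P.halt) ∧ (run α P t).head = μ

/-- The supremum of the reachable cells. -/
noncomputable def theta (α : Ordinal.{0}) : Ordinal.{0} :=
  sSup {μ | μ < α ∧ ∃ P, HaltsAt α P μ}

/-- Infinite multiplicatively closed ordinals. -/
def MulClosed (α : Ordinal.{0}) : Prop :=
  ω ≤ α ∧ ∀ μ < α, ∀ ν < α, μ * ν < α

/-! ### Basic lemmas -/

section basic

variable {X : Type*} [ConditionallyCompleteLattice X]

theorem infLim_eq {t : Ordinal.{0}} {f : (s : Ordinal.{0}) → s < t → X} {x : X}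
    (h1 : ∃ s, s < t ∧ ∀ r (hr : r < t), s ≤ r → x ≤ f r hr)
    (h2 : ∀ s, s < t → ∃ r, ∃ hr : r < t, s ≤ r ∧ f r hr = x) : infLim t f = x := by
  apply IsGreatest.csSup_eq
  refine ⟨h1, ?_⟩
  rintro m ⟨s, hs, hm⟩
  obtain ⟨r, hr, hsr, rfl⟩ := h2 s hs
  exact hm r hr hsr

theorem infLim_const {t : Ordinal.{0}} {f : (s : Ordinal.{0}) → s < t → X} {x : X}
    (s : Ordinal.{0}) (hs : s < t) (h : ∀ r (hr : r < t), s ≤ r → f r hr = x) :
    infLim t f = x := by
  apply infLim_eq
  · exact ⟨s, hs, fun r hr hsr => (h r hr hsr).ge⟩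
  · intro s' hs'
    exact ⟨max s s', max_lt hs hs', le_max_right _ _, h _ _ (le_max_left _ _)⟩

/-- shifting the time origin -/
theorem infLim_shift {t0 c : Ordinal.{0}} (hc : IsSuccLimit c)
    (f : (s : Ordinal.{0}) → s < t0 + c → X) (g : (s : Ordinal.{0}) → s < c → X)
    (h : ∀ s (hs : s < c), f (t0 + s) (by gcongr) = g s hs) :
    infLim (t0 + c) f = infLim c g := by
  unfold infLim
  congr 1
  ext m
  constructor
  · rintro ⟨s, hs, hm⟩
    rcases le_total t0 s with h0 | h0
    · obtain ⟨s', rfl⟩ := exists_add_of_le h0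
      have hs' : s' < c := by simpa using hs
      refine ⟨s', hs', fun r hr hsr => ?_⟩
      rw [← h]
      exact hm _ _ (by gcongr)
    · refine ⟨0, hc.bot_lt, fun r hr _ => ?_⟩
      rw [← h]
      exact hm _ _ (h0.trans (by simp))
  · rintro ⟨s, hs, hm⟩
    refine ⟨t0 + s, by gcongr, fun r hr hsr => ?_⟩
    obtain ⟨r', rfl⟩ := exists_add_of_le ((le_self_add : t0 ≤ t0 + s).trans hsr)
    have hr' : r' < c := by simpa using hr
    rw [h r' hr']
    exact hm _ _ (by simpa using hsr)

end basic

theorem infLim_id {c : Ordinal.{0}} (hc : IsSuccLimit c) : infLim c (fun s _ => s) = c := by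
  unfold infLim
  have : {m | ∃ s, s < c ∧ ∀ r (_ : r < c), s ≤ r → m ≤ r} = Iio c := by
    ext m
    constructor
    · rintro ⟨s, hs, hm⟩
      exact (hm s hs le_rfl).trans_lt hs
    · intro hm
      exact ⟨m, hm, fun r _ h => h⟩
  rw [this]
  exact hc.sSup_Iio

variable {α : Ordinal.{0}} {P : Program}

theorem run_zero : run α P 0 = ⟨P.start, 0, fun _ _ => false⟩ := by
  simp [run]

theorem run_succ (t : Ordinal.{0}) : run α P (t + 1) = step P (run α P t) := by
  simp [run]

theorem run_limit {t : Ordinal.{0}} (ht : IsSuccLimit t) :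
    run α P t = limitConfig α P t fun s _ => run α P s := by
  rw [run, limitRecOn_limit _ _ _ _ ht]
  rfl

theorem HaltsAt.unique {μ μ' : Ordinal.{0}} (h : HaltsAt α P μ) (h' : HaltsAt α P μ') :
    μ = μ' := by
  obtain ⟨t, ht, hlt, rfl⟩ := h
  obtain ⟨t', ht', hlt', rfl⟩ := h'
  rcases lt_trichotomy t t' with h | h | h
  · exact absurd ht (hlt' t h)
  · rw [h]
  · exact absurd ht' (hlt t' h)


/-! ### The program -/

/-- The sieving program. Writing `x` and `y` for the bits on the work and output tape: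
state `0` (`v`): on `y = 1` (only cell `0`) go to state `2`, otherwise to state `1`;
state `1` (`w`): on `y = 1` (only cell `0`) go to state `3`; on `x = 1` stay; otherwise write
`x := 1` and go to state `0`;
state `2` (`a`): on `y = 1` stay; otherwise write `x := 1`, `y := 1` and go to state `0`;
state `3` (`f`): on `y = 1` stay; otherwise halt;
state `4` is the start state: write `y := 1` and go to state `2`;
state `5` is the halting state. The head always moves right. -/
def dl (q : Fin 6) (s : Fin 3 → Bool) : Fin 6 × (Fin 3 → Bool) × Dir :=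
  match q with
  | 0 => if s 2 then (2, s, .right) else (1, s, .right)
  | 1 => if s 2 then (3, s, .right) else
      if s 1 then (1, s, .right) else (0, Function.update s 1 true, .right)
  | 2 => if s 2 then (2, s, .right) else
      (0, Function.update (Function.update s 1 true) 2 true, .right)
  | 3 => if s 2 then (3, s, .right) else (5, s, .right)
  | 4 => (2, Function.update s 2 true, .right)
  | 5 => (5, s, .right)

/-- The program with the transition function `dl`, start state `4` and halting state `5`. -/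
def prog : Program where
  n := 5
  start := 4
  halt := 5
  δ := dl

theorem prog_right (q : Fin 6) (s : Fin 3 → Bool) : (dl q s).2.2 = .right := by
  fin_cases q <;> simp only [dl] <;> (try split_ifs) <;> rfl

theorem prog_mono (q : Fin 6) (s : Fin 3 → Bool) (i : Fin 3) (h : s i = true) :
    (dl q s).2.1 i = true := by
  fin_cases q <;> simp only [dl] <;> (try split_ifs) <;> simp [h, Function.update_apply]

theorem head_succ (t : Ordinal.{0}) :
    (run α prog (t + 1)).head = (run α prog t).head + 1 := by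
  rw [run_succ]
  have h : (prog.δ (run α prog t).state fun i => (run α prog t).tape i (run α prog t).head).2.2 =
      .right := prog_right _ _
  simp only [step]
  rw [h]

theorem tape_succ_ne (t : Ordinal.{0}) (i : Fin 3) {d : Ordinal.{0}}
    (hd : d ≠ (run α P t).head) :
    (run α P (t + 1)).tape i d = (run α P t).tape i d := by
  rw [run_succ]
  simp [step, Function.update_of_ne hd]

theorem tape_succ_eq (t : Ordinal.{0}) (i : Fin 3) {d : Ordinal.{0}}
    (hd : d = (run α P t).head) :
    (run α P (t + 1)).tape i d =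
      (P.δ (run α P t).state fun i => (run α P t).tape i d).2.1 i := by
  rw [run_succ]
  subst hd
  simp [step]

theorem state_succ (t : Ordinal.{0}) {d : Ordinal.{0}} (hd : (run α P t).head = d) :
    (run α P (t + 1)).state = (P.δ (run α P t).state fun i => (run α P t).tape i d).1 := by
  rw [run_succ]
  subst hd
  simp [step]

theorem isSuccLimit_add' {a b : Ordinal.{0}} (hb : IsSuccLimit b) : IsSuccLimit (a + b) :=
  isSuccLimit_add a hb

theorem tape_limit_aux {t0 c : Ordinal.{0}} (hc : IsSuccLimit c)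
    (ih2 : ∀ c' < c, ∀ i d, c' ≤ d →
      (run α prog (t0 + c')).tape i d = (run α prog t0).tape i d)
    (ih3 : ∀ c' < c, ∀ i d, d < c' →
      (run α prog (t0 + c')).tape i d = (run α prog (t0 + d + 1)).tape i d) :
    (∀ i d, c ≤ d → (run α prog (t0 + c)).tape i d = (run α prog t0).tape i d) ∧
    (∀ i d, d < c → (run α prog (t0 + c)).tape i d = (run α prog (t0 + d + 1)).tape i d) := by
  have hlim : IsSuccLimit (t0 + c) := isSuccLimit_add' hc
  have key : ∀ i d, (run α prog (t0 + c)).tape i d =
      infLim c fun s _ => (run α prog (t0 + s)).tape i d := by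
    intro i d
    rw [run_limit hlim]
    exact infLim_shift hc _ _ fun s hs => rfl
  constructor
  · intro i d hd
    rw [key]
    exact infLim_const 0 hc.bot_lt fun r hr _ => ih2 r hr i d (hr.le.trans hd)
  · intro i d hd
    rw [key]
    refine infLim_const (d + 1) (hc.add_one_lt hd) fun r hr h => ih3 r hr i d ?_
    exact (lt_add_one d).trans_le h

theorem sweep (hα : IsSuccLimit α) {t0 : Ordinal.{0}} (h0 : (run α prog t0).head = 0) :
    ∀ c < α, (run α prog (t0 + c)).head = c ∧
      (∀ i d, c ≤ d → (run α prog (t0 + c)).tape i d = (run α prog t0).tape i d) ∧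
      (∀ i d, d < c → (run α prog (t0 + c)).tape i d = (run α prog (t0 + d + 1)).tape i d) := by
  intro c
  induction c using limitRecOn with
  | zero =>
    intro _
    simp [h0]
  | add_one c ih =>
    intro hc
    obtain ⟨ih1, ih2, ih3⟩ := ih ((lt_add_one c).trans hc)
    rw [← add_assoc]
    refine ⟨by rw [head_succ, ih1], ?_, ?_⟩
    · intro i d hd
      rw [tape_succ_ne _ _ (by rw [ih1]; exact ((lt_add_one c).trans_le hd).ne')]
      exact ih2 i d ((lt_add_one c).le.trans hd)
    · intro i d hd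
      rcases (lt_add_one_iff.1 hd).eq_or_lt with rfl | hd
      · rfl
      · rw [tape_succ_ne _ _ (by rw [ih1]; exact hd.ne)]
        exact ih3 i d hd
  | limit c hc ih =>
    intro hcα
    have hlim : IsSuccLimit (t0 + c) := isSuccLimit_add' hc
    have hhead : infLim (t0 + c) (fun s _ => (run α prog s).head) = c := by
      rw [infLim_shift hc _ (fun s _ => s) fun s hs => (ih s hs (hs.trans hcα)).1]
      exact infLim_id hc
    refine ⟨?_, tape_limit_aux hc (fun c' hc' => (ih c' hc' (hc'.trans hcα)).2.1)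
      (fun c' hc' => (ih c' hc' (hc'.trans hcα)).2.2)⟩
    rw [run_limit hlim]
    simp only [limitConfig]
    rw [hhead, if_neg hcα.ne]

theorem sweep_end (hα : IsSuccLimit α) {t0 : Ordinal.{0}} (h0 : (run α prog t0).head = 0) :
    (run α prog (t0 + α)).head = 0 ∧
      (∀ i d, d < α → (run α prog (t0 + α)).tape i d = (run α prog (t0 + d + 1)).tape i d) := by
  have hlim : IsSuccLimit (t0 + α) := isSuccLimit_add' hα
  have hhead : infLim (t0 + α) (fun s _ => (run α prog s).head) = α := by
    rw [infLim_shift hα _ (fun s _ => s) fun s hs => (sweep hα h0 s hs).1]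
    exact infLim_id hα
  refine ⟨?_, (tape_limit_aux hα (fun c' hc' => (sweep hα h0 c' hc').2.1)
      (fun c' hc' => (sweep hα h0 c' hc').2.2)).2⟩
  rw [run_limit hlim]
  simp only [limitConfig]
  rw [hhead, if_pos rfl]


/-! ### One pass over the tape -/

/-- `q c` is the state in which the cell `c` is visited in some pass, and `X` the content of the
tapes at the beginning of this pass. -/
structure IsPass (α : Ordinal.{0}) (q : Ordinal.{0} → Fin 6) (X : Fin 3 → Ordinal.{0} → Bool) :
    Prop where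
  succ : ∀ c < α, q (c + 1) = (dl (q c) fun i => X i c).1
  lim : ∀ c ≤ α, IsSuccLimit c → q c = infLim c (fun s _ => q s)

/-- the state at time `t` -/
noncomputable def st (α t : Ordinal.{0}) : Fin 6 := (run α prog t).state

/-- the tapes at time `t` -/
noncomputable def tp (α t : Ordinal.{0}) : Fin 3 → Ordinal.{0} → Bool := (run α prog t).tape

theorem isPass (hα : IsSuccLimit α) {t0 : Ordinal.{0}} (h0 : (run α prog t0).head = 0) :
    IsPass α (fun c => st α (t0 + c)) (tp α t0) where
  succ c hc := by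
    obtain ⟨h1, h2, -⟩ := sweep hα h0 c hc
    have := state_succ _ h1
    simp only [h2 _ c le_rfl] at this
    rw [add_assoc] at this
    exact this
  lim c _ hl := by
    have := congrArg Config.state (run_limit (α := α) (P := prog) (isSuccLimit_add' (a := t0) hl))
    refine Eq.trans this ?_
    exact infLim_shift hl _ _ fun s hs => rfl

theorem tape_after (hα : IsSuccLimit α) {t0 : Ordinal.{0}} (h0 : (run α prog t0).head = 0)
    (i : Fin 3) {c : Ordinal.{0}} (hc : c < α) :
    tp α (t0 + α) i c = (dl (st α (t0 + c)) fun i => tp α t0 i c).2.1 i := by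
  obtain ⟨h1, h2, -⟩ := sweep hα h0 c hc
  have := (sweep_end hα h0).2 i c hc
  rw [tape_succ_eq _ _ h1.symm] at this
  simp only [h2 _ c le_rfl] at this
  exact this

section pass

variable {q : Ordinal.{0} → Fin 6} {X : Fin 3 → Ordinal.{0} → Bool} {g : Ordinal.{0}}

theorem δ0 {s : Fin 3 → Bool} (h : s 2 = true) : dl 0 s = (2, s, .right) := by
  simp only [dl, h, if_true]
theorem δ0' {s : Fin 3 → Bool} (h : s 2 = false) : dl 0 s = (1, s, .right) := by
  simp [dl, h]
theorem δ1 {s : Fin 3 → Bool} (h : s 2 = true) : dl 1 s = (3, s, .right) := by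
  simp [dl, h]
theorem δ1' {s : Fin 3 → Bool} (h : s 2 = false) (h1 : s 1 = true) :
    dl 1 s = (1, s, .right) := by
  simp [dl, h, h1]
theorem δ1'' {s : Fin 3 → Bool} (h : s 2 = false) (h1 : s 1 = false) :
    dl 1 s = (0, Function.update s 1 true, .right) := by
  simp [dl, h, h1]
theorem δ2 {s : Fin 3 → Bool} (h : s 2 = true) : dl 2 s = (2, s, .right) := by
  simp [dl, h]
theorem δ2' {s : Fin 3 → Bool} (h : s 2 = false) : dl 2 s =
    (0, Function.update (Function.update s 1 true) 2 true, .right) := by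
  simp [dl, h]
theorem δ3 {s : Fin 3 → Bool} (h : s 2 = true) : dl 3 s = (3, s, .right) := by
  simp [dl, h]
theorem δ3' {s : Fin 3 → Bool} (h : s 2 = false) : dl 3 s = (5, s, .right) := by
  simp [dl, h]

/-- moving over the bar, for the states `2` and `3` -/
theorem IsPass.bar (hq : IsPass α q X) {k : Fin 6} (hk : k = 2 ∨ k = 3) (h1 : q 1 = k)
    (hg : g ≤ α) (hX : ∀ c, 0 < c → c < g → X 2 c = true) :
    ∀ c, 1 ≤ c → c ≤ g → q c = k := by
  intro c
  induction c using limitRecOn with
  | zero => intro h; simp at h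
  | add_one c ih =>
    intro _ hc
    rcases eq_or_ne c 0 with rfl | hc0
    · simpa using h1
    have hcg : c < g := (lt_add_one c).trans_le hc
    have hc1 : 1 ≤ c := one_le_iff_ne_zero.2 hc0
    rw [hq.succ c (hcg.trans_le hg), ih hc1 hcg.le]
    have := hX c (pos_iff_ne_zero.2 hc0) hcg
    rcases hk with rfl | rfl
    · rw [δ2 this]
    · rw [δ3 this]
  | limit c hc ih =>
    intro _ hcg
    rw [hq.lim c (hcg.trans hg) hc]
    exact infLim_const 1 (hc.add_one_lt hc.bot_lt |>.trans_eq' (by simp)) fun r hr h1 => ih r hr h1 (hr.le.trans hcg)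

variable (hq : IsPass α q X) (h1 : q 1 = 2) (hg0 : 1 ≤ g) (hg : g < α)
  (hX : ∀ c, 0 < c → c < g → X 2 c = true)
  (hX' : ∀ c, g ≤ c → c < α → X 2 c = false)

include hq h1 hg0 hg hX hX'

theorem IsPass.after_bar : q (g + 1) = 0 := by
  rw [hq.succ g hg, hq.bar (Or.inl rfl) h1 hg.le hX g hg0 le_rfl, δ2' (hX' g le_rfl hg)]

theorem IsPass.zero_or_one : ∀ c, g < c → c ≤ α → q c = 0 ∨ q c = 1 := by
  intro c
  induction c using limitRecOn with
  | zero => intro h; simp at h
  | add_one c ih =>
    intro hgc hc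
    have hcα : c < α := (lt_add_one c).trans_le hc
    rcases (lt_add_one_iff.1 hgc).eq_or_lt with rfl | hgc
    · exact Or.inl (hq.after_bar h1 hg0 hg hX hX')
    · have hy := hX' c hgc.le hcα
      rw [hq.succ c hcα]
      rcases ih hgc hcα.le with h | h
      · rw [h, δ0' hy]; simp
      · rw [h]
        rcases hx : X 1 c with _ | _
        · rw [δ1'' hy hx]; simp
        · rw [δ1' hy hx]; simp
  | limit c hc ih =>
    intro hgc hcα
    rw [hq.lim c hcα hc]
    by_cases h : ∀ s, s < c → ∃ r, ∃ hr : r < c, s ≤ r ∧ q r = 0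
    · left
      apply infLim_eq
      · exact ⟨0, hc.bot_lt, fun r hr _ => Fin.zero_le _⟩
      · exact h
    · right
      push Not at h
      obtain ⟨s, hs, h⟩ := h
      refine infLim_const (max s (g + 1)) (max_lt hs (hc.add_one_lt hgc)) fun r hr hsr => ?_
      have h1 : s ≤ r := (le_max_left _ _).trans hsr
      have h2 : g < r := (lt_add_one g).trans_le ((le_max_right _ _).trans hsr)
      exact (ih r hr h2 (hr.le.trans hcα)).resolve_left (h r hr h1)

/-- a marked cell is followed or met by state `0` -/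
theorem IsPass.mark {p : Ordinal.{0}} (hgp : g < p) (hp : p < α) (hx : X 1 p = false) :
    q p = 0 ∨ q (p + 1) = 0 := by
  rcases hq.zero_or_one h1 hg0 hg hX hX' p hgp hp.le with h | h
  · exact Or.inl h
  · right
    rw [hq.succ p hp, h, δ1'' (hX' p hgp.le hp) hx]

theorem IsPass.limit_zero {c : Ordinal.{0}} (hc : IsSuccLimit c) (hgc : g < c) (hcα : c ≤ α)
    (hm : ∀ b < c, ∃ p, b ≤ p ∧ p < c ∧ X 1 p = false) : q c = 0 := by
  rw [hq.lim c hcα hc]
  apply infLim_eq
  · exact ⟨0, hc.bot_lt, fun r hr _ => Fin.zero_le _⟩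
  · intro s hs
    obtain ⟨p, hp, hpc, hx⟩ := hm (max s (g + 1)) (max_lt hs (hc.add_one_lt hgc))
    have h1' : s ≤ p := (le_max_left _ _).trans hp
    have h2 : g < p := (lt_add_one g).trans_le ((le_max_right _ _).trans hp)
    rcases hq.mark h1 hg0 hg hX hX' h2 (hpc.trans_le hcα) hx with h | h
    · exact ⟨p, hpc, h1', h⟩
    · exact ⟨p + 1, hc.add_one_lt hpc, h1'.trans (lt_add_one p).le, h⟩

theorem IsPass.no_marks {b : Ordinal.{0}} (hgb : g < b) :
    ∀ c, b + 1 ≤ c → c ≤ α → (∀ p, b ≤ p → p < c → X 1 p = true) → q c = 1 := by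
  intro c
  induction c using limitRecOn with
  | zero => intro h; simp at h
  | add_one c ih =>
    intro hbc hc hm
    have hcα : c < α := (lt_add_one c).trans_le hc
    have hbc' : b ≤ c := by
      have := (lt_add_one b).trans_le hbc
      exact lt_add_one_iff.1 this
    have hy := hX' c (hgb.le.trans hbc') hcα
    have hx := hm c hbc' (lt_add_one c)
    have : q c = 0 ∨ q c = 1 := hq.zero_or_one h1 hg0 hg hX hX' c (hgb.trans_le hbc') hcα.le
    rw [hq.succ c hcα]
    rcases this with h | h
    · rw [h, δ0' hy]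
    · rw [h, δ1' hy hx]
  | limit c hc ih =>
    intro hbc hcα hm
    rw [hq.lim c hcα hc]
    have hb : b < c := (lt_add_one b).trans_le hbc
    exact infLim_const (b + 1) (hc.add_one_lt hb) fun r hr h =>
      ih r hr h (hr.le.trans hcα) fun p hp hpr => hm p hp (hpr.trans hr)

end pass


/-! ### Consequences for the run -/

/-- Hypotheses for a pass starting at time `t0`, with the bar of `y`-bits on the cells `< g`. -/
structure PassHyp (α t0 g : Ordinal.{0}) : Prop where
  head : (run α prog t0).head = 0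
  st1 : st α (t0 + 1) = 2
  hg0 : 1 ≤ g
  hg : g < α
  hX : ∀ c, 0 < c → c < g → tp α t0 2 c = true
  hX' : ∀ c, g ≤ c → c < α → tp α t0 2 c = false

theorem PassHyp.bar (hα : IsSuccLimit α) {t0 g : Ordinal.{0}} (h : PassHyp α t0 g) {c : Ordinal.{0}}
    (hc1 : 1 ≤ c) (hc : c ≤ g) : st α (t0 + c) = 2 :=
  (isPass hα h.head).bar (Or.inl rfl) h.st1 h.hg.le h.hX c hc1 hc

theorem PassHyp.after_bar (hα : IsSuccLimit α) {t0 g : Ordinal.{0}} (h : PassHyp α t0 g) :
    st α (t0 + (g + 1)) = 0 :=
  (isPass hα h.head).after_bar h.st1 h.hg0 h.hg h.hX h.hX'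

theorem PassHyp.zero_or_one (hα : IsSuccLimit α) {t0 g : Ordinal.{0}} (h : PassHyp α t0 g)
    {c : Ordinal.{0}} (hc1 : g < c) (hc : c ≤ α) : st α (t0 + c) = 0 ∨ st α (t0 + c) = 1 :=
  (isPass hα h.head).zero_or_one h.st1 h.hg0 h.hg h.hX h.hX' c hc1 hc

theorem PassHyp.limit_zero (hα : IsSuccLimit α) {t0 g : Ordinal.{0}} (h : PassHyp α t0 g)
    {c : Ordinal.{0}} (hc : IsSuccLimit c) (hgc : g < c) (hcα : c ≤ α)
    (hm : ∀ b < c, ∃ p, b ≤ p ∧ p < c ∧ tp α t0 1 p = false) : st α (t0 + c) = 0 :=
  (isPass hα h.head).limit_zero h.st1 h.hg0 h.hg h.hX h.hX' hc hgc hcα hm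

theorem PassHyp.no_marks (hα : IsSuccLimit α) {t0 g : Ordinal.{0}} (h : PassHyp α t0 g)
    {b : Ordinal.{0}} (hgb : g < b) {c : Ordinal.{0}} (hbc : b + 1 ≤ c) (hcα : c ≤ α)
    (hm : ∀ p, b ≤ p → p < c → tp α t0 1 p = true) : st α (t0 + c) = 1 :=
  (isPass hα h.head).no_marks h.st1 h.hg0 h.hg h.hX h.hX' hgb c hbc hcα hm

theorem PassHyp.y_after (hα : IsSuccLimit α) {t0 g : Ordinal.{0}} (h : PassHyp α t0 g)
    {c : Ordinal.{0}} (hc0 : 0 < c) (hc : c < α) :
    tp α (t0 + α) 2 c = true ↔ c < g + 1 := by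
  rw [tape_after hα h.head 2 hc]
  rcases lt_trichotomy c g with hcg | rfl | hcg
  · rw [h.bar hα (one_le_iff_ne_zero.2 hc0.ne') hcg.le]
    rw [δ2 (s := fun i => tp α t0 i c) (h.hX c hc0 hcg)]
    simp only [h.hX c hc0 hcg, true_iff]
    exact hcg.trans (lt_add_one g)
  · rw [h.bar hα (one_le_iff_ne_zero.2 hc0.ne') le_rfl]
    rw [δ2' (s := fun i => tp α t0 i c) (h.hX' c le_rfl hc)]
    simp
  · have hy := h.hX' c hcg.le hc
    have h3 : ¬ c < g + 1 := not_lt.2 (add_one_le_of_lt hcg)
    simp only [h3, iff_false, Bool.not_eq_true]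
    rcases h.zero_or_one hα hcg hc.le with h1 | h1
    · rw [h1, δ0' (s := fun i => tp α t0 i c) hy]
      exact hy
    · rw [h1]
      rcases hx : tp α t0 1 c with _ | _
      · rw [δ1'' (s := fun i => tp α t0 i c) hy hx]
        simpa using hy
      · rw [δ1' (s := fun i => tp α t0 i c) hy hx]
        exact hy

theorem PassHyp.x_after (hα : IsSuccLimit α) {t0 g : Ordinal.{0}} (h : PassHyp α t0 g)
    {c : Ordinal.{0}} (hcg : g < c) (hc : c < α) :
    tp α (t0 + α) 1 c = false ↔ (st α (t0 + c) = 0 ∧ tp α t0 1 c = false) := by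
  rw [tape_after hα h.head 1 hc]
  have hy := h.hX' c hcg.le hc
  rcases h.zero_or_one hα hcg hc.le with h1 | h1
  · rw [h1, δ0' (s := fun i => tp α t0 i c) hy]
    simp
  · rw [h1]
    rcases hx : tp α t0 1 c with _ | _
    · rw [δ1'' (s := fun i => tp α t0 i c) hy hx]
      simp
    · rw [δ1' (s := fun i => tp α t0 i c) hy hx]
      simp [hx]

theorem PassHyp.ne_halt (hα : IsSuccLimit α) {t0 g : Ordinal.{0}} (h : PassHyp α t0 g)
    {c : Ordinal.{0}} (hc0 : 0 < c) (hc : c < α) : st α (t0 + c) ≠ 5 := by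
  rcases le_or_gt c g with hcg | hcg
  · rw [h.bar hα (one_le_iff_ne_zero.2 hc0.ne') hcg]
    decide
  · rcases h.zero_or_one hα hcg hc.le with h1 | h1 <;> rw [h1] <;> decide

/-- bits are never erased by the program -/
theorem tape_mono : ∀ t s : Ordinal.{0}, s ≤ t → ∀ i d, tp α s i d = true → tp α t i d = true := by
  intro t
  induction t using limitRecOn with
  | zero => intro s hs i d h; rwa [← (nonpos_iff_eq_zero.1 hs)]
  | add_one t ih =>
    intro s hs i d h
    rcases hs.eq_or_lt with rfl | hs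
    · exact h
    have := ih s (lt_add_one_iff.1 hs) i d h
    by_cases hd : d = (run α prog t).head
    · have h2 := tape_succ_eq (P := prog) t i hd
      have h3 := prog_mono (st α t) (fun i => tp α t i d) i this
      exact h2.trans h3
    · exact (tape_succ_ne (P := prog) t i hd).trans this
  | limit t ht ih =>
    intro s hs i d h
    rcases hs.eq_or_lt with rfl | hs
    · exact h
    unfold tp
    rw [run_limit ht]
    exact infLim_const s hs fun r hr hsr => ih r hr s hsr i d h

theorem tape_limit_false {t : Ordinal.{0}} (ht : IsSuccLimit t) {i : Fin 3} {d : Ordinal.{0}}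
    (h : ∀ s < t, tp α s i d = false) : tp α t i d = false := by
  unfold tp
  rw [run_limit ht]
  exact infLim_const 0 ht.bot_lt fun r hr _ => h r hr

/-! ### Ordinal arithmetic -/

theorem exists_mul_between {a c b : Ordinal.{0}} (ha : a ≠ 0) (hc : a * ω ∣ c) (hb : b < c) :
    ∃ p, b ≤ p ∧ p < c ∧ a ∣ p := by
  obtain ⟨ζ, rfl⟩ := hc
  rw [mul_assoc] at hb ⊢
  refine ⟨a * (b / a + 1), ?_, ?_, dvd_mul_right _ _⟩
  · rw [mul_add_one]
    exact (lt_mul_div_add b ha).le
  · have h1 : b / a < ω * ζ := (lt_mul_iff_div_lt ha).1 hb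
    have h0 : ω * ζ ≠ 0 := by
      intro h
      rw [h] at h1
      simp at h1
    have hl : IsSuccLimit (ω * ζ) := by
      rw [isSuccLimit_iff, isSuccPrelimit_iff_omega0_dvd]
      exact ⟨by simpa using h0, dvd_mul_right _ _⟩
    have h2 := hl.add_one_lt h1
    gcongr

theorem mul_omega_dvd {a c g : Ordinal.{0}} (ha : 1 < a) (hc : IsSuccLimit c) (hgc : g < c)
    (hac : a ∣ c) (h : ∀ b, g < b → b < c → ∃ p, b ≤ p ∧ p < c ∧ a ∣ p) : a * ω ∣ c := by
  obtain ⟨ζ, rfl⟩ := hac
  rcases zero_or_succ_or_isSuccLimit ζ with rfl | ⟨ζ', rfl⟩ | hζ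
  · simp
  · exfalso
    rw [succ_eq_add_one] at *
    have h1 : a * ζ' + 1 < a * (ζ' + 1) := by
      rw [mul_add_one]
      gcongr
    obtain ⟨p, hbp, hpc, ξ, rfl⟩ := h (max (a * ζ' + 1) (g + 1))
      ((lt_add_one g).trans_le (le_max_right _ _)) (max_lt h1 (hc.add_one_lt hgc))
    have h2 : a * ζ' < a * ξ :=
      (lt_add_one _).trans_le ((le_max_left _ _).trans hbp)
    have ha0 : 0 < a := zero_lt_one.trans ha
    rw [mul_lt_mul_iff_right₀ ha0] at h2 hpc
    exact absurd hpc (not_lt.2 (add_one_le_of_lt h2))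
  · have : ω ∣ ζ := isSuccPrelimit_iff_omega0_dvd.1 hζ.isSuccPrelimit
    exact mul_dvd_mul_left a this

theorem opow_dvd_of_forall {lam c : Ordinal.{0}} (hl : IsSuccLimit lam)
    (h : ∀ j < lam, ω ^ j ∣ c) : ω ^ lam ∣ c := by
  have hdec : ω ^ lam * (c / ω ^ lam) + c % ω ^ lam = c := div_add_mod c (ω ^ lam)
  have hr : c % ω ^ lam < ω ^ lam := mod_lt _ (opow_pos _ omega0_pos).ne'
  obtain ⟨j, hj, hrj⟩ := (lt_opow_of_isSuccLimit omega0_ne_zero hl).1 hr
  have h1 : ω ^ j ∣ ω ^ lam * (c / ω ^ lam) := (opow_dvd_opow ω hj.le).trans (dvd_mul_right _ _)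
  have h2 : ω ^ j ∣ c % ω ^ lam := by
    have := h j hj
    rw [← hdec] at this
    exact (dvd_add_iff h1).1 this
  have h3 : c % ω ^ lam = 0 := by
    by_contra h0
    exact absurd (le_of_dvd h0 h2) (not_le.2 hrj)
  rw [h3, add_zero] at hdec
  exact ⟨_, hdec.symm⟩


/-! ### The invariant at the beginning of pass `ρ ≥ 1` -/

structure Inv (α ρ : Ordinal.{0}) : Prop where
  head : (run α prog (α * ρ)).head = 0
  state : st α (α * ρ) = 0
  y0 : tp α (α * ρ) 2 0 = true
  bar : ∀ c, 0 < c → c < α → (tp α (α * ρ) 2 c = true ↔ c < 1 + ρ)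
  low : ∀ c < α, 1 + ρ ≤ c → ω ^ ρ ∣ c → tp α (α * ρ) 1 c = false
  up : ∀ c < α, 1 + ρ < c → tp α (α * ρ) 1 c = false → ∀ j, 1 ≤ j → 1 + j ≤ ρ → ω ^ j ∣ c
  up1 : ρ = 1 → ∀ c < α, 2 < c → tp α (α * ρ) 1 c = false → tp α (α * ρ) 1 (c + 1) = true
  nh : ∀ t < α * ρ, st α t ≠ 5

theorem isSuccLimit_of_dvd {c : Ordinal.{0}} (h0 : c ≠ 0) (h : ω ∣ c) : IsSuccLimit c := by
  rw [isSuccLimit_iff, isSuccPrelimit_iff_omega0_dvd]
  exact ⟨by simpa using h0, h⟩

theorem st_after_zero {t0 : Ordinal.{0}} (hα : IsSuccLimit α) (h0 : (run α prog t0).head = 0) :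
    st α (t0 + 1) = (dl (st α t0) fun i => tp α t0 i 0).1 := by
  have := (isPass hα h0).succ 0 hα.bot_lt
  simpa using this

theorem Inv.passHyp (hα : IsSuccLimit α) {ρ : Ordinal.{0}} (h : Inv α ρ) (hρ : 1 + ρ < α) :
    PassHyp α (α * ρ) (1 + ρ) where
  head := h.head
  st1 := by
    rw [st_after_zero hα h.head, h.state, δ0 (s := fun i => tp α (α * ρ) i 0) h.y0]
  hg0 := le_self_add
  hg := hρ
  hX c hc0 hc := (h.bar c hc0 (hc.trans hρ)).2 hc
  hX' c hc hcα := by
    have h0 : 0 < c := zero_lt_one.trans_le (le_self_add.trans hc)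
    have := (h.bar c h0 hcα).not.2 (not_lt.2 hc)
    simpa using this

theorem Inv.one (hα : IsSuccLimit α) (hα2 : ω ≤ α) : Inv α 1 := by
  have hhead : (run α prog 0).head = 0 := by rw [run_zero]
  have htp : ∀ i c, tp α 0 i c = false := by intro i c; unfold tp; rw [run_zero]
  have hst : st α 0 = 4 := by unfold st; rw [run_zero]; rfl
  have h1α : 1 < α := lt_of_lt_of_le one_lt_omega0 hα2
  have hp : PassHyp α 0 1 := by
    refine ⟨hhead, ?_, le_rfl, h1α, ?_, ?_⟩
    · rw [st_after_zero hα hhead, hst]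
      rfl
    · intro c hc hc1
      exact absurd hc1 (not_lt.2 (one_le_iff_ne_zero.2 hc.ne'))
    · intro c _ _
      exact htp _ _
  have e : α * 1 = 0 + α := by simp
  -- the state at every limit cell is `0`
  have hlim : ∀ c, IsSuccLimit c → c ≤ α → st α (0 + c) = 0 := by
    intro c hc hcα
    have h1c : 1 < c := by simpa using hc.add_one_lt hc.bot_lt
    exact hp.limit_zero hα hc h1c hcα fun b hb => ⟨b, le_rfl, hb, htp _ _⟩
  constructor
  · rw [e]; exact (sweep_end hα hhead).1
  · rw [e]; exact hlim α hα le_rfl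
  · rw [e, tape_after hα hhead 2 (c := 0) hα.bot_lt]
    simp only [add_zero, hst]
    rfl
  · intro c hc0 hc
    rw [e]
    exact hp.y_after hα hc0 hc
  · intro c hc h1 h2
    rw [e, hp.x_after hα ((lt_add_one 1).trans_le h1) hc]
    refine ⟨?_, htp _ _⟩
    have hc0 : c ≠ 0 := by rintro rfl; simp at h1
    exact hlim c (isSuccLimit_of_dvd hc0 (by simpa using h2)) hc.le
  · intro c _ _ _ j hj1 hj
    have h2 : 1 + 1 ≤ 1 + j := by gcongr
    have h3 := h2.trans hj
    norm_num at h3
  · intro _ c hc h2 hx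
    rw [e] at hx ⊢
    have h1c : 1 < c := lt_trans (by norm_num) h2
    rw [hp.x_after hα h1c hc] at hx
    by_contra hne
    rw [Bool.not_eq_true, hp.x_after hα (h1c.trans (lt_add_one c)) (hα.add_one_lt hc)] at hne
    have h5 : st α (0 + (c + 1)) = _ := (isPass hα hhead).succ c hc
    rw [hx.1, δ0' (s := fun i => tp α 0 i c) (htp _ _)] at h5
    rw [h5] at hne
    exact absurd hne.1 (show (1 : Fin 6) ≠ 0 by decide)
  · intro t ht
    rw [mul_one] at ht
    rcases eq_or_ne t 0 with rfl | ht0
    · rw [hst]; decide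
    · have := hp.ne_halt hα (pos_iff_ne_zero.2 ht0) ht
      simpa using this

theorem omega_dvd_opow {j : Ordinal.{0}} (hj : 1 ≤ j) : ω ∣ ω ^ j := by
  simpa using opow_dvd_opow ω hj

theorem Inv.add_one (hα : IsSuccLimit α) {ρ κ : Ordinal.{0}} (hακ : α = ω ^ κ) (h : Inv α ρ)
    (hρ1 : 1 ≤ ρ) (hρκ : ρ < κ) (hρ : 1 + ρ < α) : Inv α (ρ + 1) := by
  have hp := h.passHyp hα hρ
  have e : α * (ρ + 1) = α * ρ + α := mul_add_one _ _
  have e1 : 1 + (ρ + 1) = 1 + ρ + 1 := (add_assoc _ _ _).symm
  have hωρ : ω ^ ρ ≠ 0 := (opow_pos _ omega0_pos).ne'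
  -- at nonzero multiples of `ω ^ (ρ + 1)` beyond the bar the state is `0`
  have hlim : ∀ c, c ≠ 0 → ω ^ (ρ + 1) ∣ c → 1 + ρ < c → c ≤ α → st α (α * ρ + c) = 0 := by
    intro c hc0 hdvd hc hcα
    have hdvd' : ω ^ ρ * ω ∣ c := by rwa [← opow_add_one]
    have hcl : IsSuccLimit c :=
      isSuccLimit_of_dvd hc0 ((omega_dvd_opow (le_add_of_nonneg_left zero_le)).trans hdvd)
    refine hp.limit_zero hα hcl hc hcα fun b hb => ?_
    obtain ⟨p, hbp, hpc, hdp⟩ := exists_mul_between hωρ hdvd' (max_lt hb hc)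
    exact ⟨p, (le_max_left _ _).trans hbp, hpc,
      h.low p (hpc.trans_le hcα) ((le_max_right _ _).trans hbp) hdp⟩
  constructor
  · rw [e]; exact (sweep_end hα h.head).1
  · rw [e]
    refine hlim α hα.bot_lt.ne' ?_ hρ le_rfl
    rw [hακ]
    exact opow_dvd_opow ω (add_one_le_of_lt hρκ)
  · rw [e, tape_after hα h.head 2 (c := 0) hα.bot_lt]
    simp only [add_zero, h.state]
    rw [δ0 (s := fun i => tp α (α * ρ) i 0) h.y0]
    exact h.y0
  · intro c hc0 hc
    rw [e, e1]
    exact hp.y_after hα hc0 hc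
  · intro c hc h1 h2
    rw [e1] at h1
    have hgc : 1 + ρ < c := (lt_add_one _).trans_le h1
    rw [e, hp.x_after hα hgc hc]
    have hc0 : c ≠ 0 := by rintro rfl; simp at hgc
    refine ⟨hlim c hc0 h2 hgc hc.le, ?_⟩
    exact h.low c hc hgc.le ((opow_dvd_opow ω (lt_add_one ρ).le).trans h2)
  · intro c hc h1 hx j hj1 hj
    rw [e1] at h1
    have hgc : 1 + ρ < c := (lt_add_one _).trans h1
    rw [e, hp.x_after hα hgc hc] at hx
    obtain ⟨hst, hx⟩ := hx
    rcases hj.lt_or_eq with hj | hj
    · exact h.up c hc hgc hx j hj1 (lt_add_one_iff.1 hj)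
    -- now `1 + j = ρ + 1`, so `j` is a successor `j' + 1` with `1 + j' = ρ`
    obtain ⟨j', rfl⟩ : ∃ j', j = j' + 1 := by
      rcases zero_or_succ_or_isSuccLimit j with rfl | ⟨j', rfl⟩ | hjl
      · simp at hj1
      · exact ⟨j', rfl⟩
      · exfalso
        have h3 : IsSuccLimit (1 + j) := isSuccLimit_add' hjl
        rw [hj] at h3
        exact not_isSuccLimit_succ ρ h3
    have hj' : 1 + j' = ρ := by
      rw [← add_assoc] at hj
      exact add_one_inj.1 hj
    rcases eq_or_ne j' 0 with rfl | hj0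
    · -- `ρ = 1`
      have hρe : ρ = 1 := by simpa using hj'.symm
      subst hρe
      simp only [zero_add, opow_one]
      rw [← isSuccPrelimit_iff_omega0_dvd]
      by_contra hcs
      obtain ⟨p, rfl⟩ : ∃ p, c = p + 1 := by
        rcases zero_or_succ_or_isSuccLimit c with rfl | ⟨j', rfl⟩ | hjl
        · simp at hgc
        · exact ⟨j', rfl⟩
        · exact absurd hjl.isSuccPrelimit hcs
      have hgp : 1 + 1 < p := by
        by_contra hle
        exact absurd h1 (not_lt.2 (by gcongr; exact not_lt.1 hle))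
      have hpα : p < α := (lt_add_one p).trans hc
      have hsucc : st α (α * 1 + (p + 1)) = _ := (isPass hα h.head).succ p hpα
      have hyp := hp.hX' p hgp.le hpα
      have hxp : tp α (α * 1) 1 p = false := by
        rcases hp.zero_or_one hα hgp hpα.le with h0 | h0
        · exfalso
          simp only [h0] at hsucc
          rw [hst, δ0' (s := fun i => tp α (α * 1) i p) hyp] at hsucc
          exact absurd hsucc (show (0 : Fin 6) ≠ 1 by decide)
        · by_contra hxt
          rw [Bool.not_eq_false] at hxt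
          simp only [h0] at hsucc
          rw [hst, δ1' (s := fun i => tp α (α * 1) i p) hyp hxt] at hsucc
          exact absurd hsucc (show (0 : Fin 6) ≠ 1 by decide)
      have h2 := h.up1 rfl p hpα (by rwa [one_add_one_eq_two] at hgp) hxp
      rw [hx] at h2
      exact absurd h2 (by simp)
    · -- marks are multiples of `ω ^ j'`
      have hj1' : 1 ≤ j' := one_le_iff_ne_zero.2 hj0
      have hmark : ∀ p < α, 1 + ρ < p → tp α (α * ρ) 1 p = false → ω ^ j' ∣ p :=
        fun p hp1 hp2 hp3 => h.up p hp1 hp2 hp3 j' hj1' hj'.le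
      have hc0 : c ≠ 0 := by rintro rfl; simp at hgc
      have hcl : IsSuccLimit c :=
        isSuccLimit_of_dvd hc0 ((omega_dvd_opow hj1').trans (hmark c hc hgc hx))
      have h1ω : 1 < ω ^ j' := one_lt_opow.2 ⟨one_lt_omega0, hj0⟩
      rw [opow_add_one]
      refine mul_omega_dvd h1ω hcl hgc (hmark c hc hgc hx) fun b hb hbc => ?_
      by_contra hno
      have hall : ∀ p, b ≤ p → p < c → tp α (α * ρ) 1 p = true := by
        intro p hbp hpc
        by_contra hxt
        rw [Bool.not_eq_true] at hxt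
        exact hno ⟨p, hbp, hpc, hmark p (hpc.trans hc) (hb.trans_le hbp) hxt⟩
      have := hp.no_marks hα hb (add_one_le_of_lt hbc) hc.le hall
      rw [hst] at this
      exact absurd this (show (0 : Fin 6) ≠ 1 by decide)
  · intro hρ0
    exfalso
    have : ρ = 0 := add_one_inj.1 (by rw [hρ0, zero_add])
    rw [this] at hρ1
    simp at hρ1
  · intro t ht
    rw [e] at ht
    rcases lt_or_ge t (α * ρ) with h1 | h1
    · exact h.nh t h1
    · obtain ⟨c, rfl⟩ := exists_add_of_le h1
      have hc : c < α := by simpa using ht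
      rcases eq_or_ne c 0 with rfl | hc0
      · rw [add_zero, h.state]; decide
      · exact hp.ne_halt hα (pos_iff_ne_zero.2 hc0) hc

theorem Inv.limit (hα : IsSuccLimit α) {lam : Ordinal.{0}} (hl : IsSuccLimit lam)
    (h : ∀ ρ < lam, 1 ≤ ρ → Inv α ρ) : Inv α lam := by
  have hα0 : 0 < α := hα.bot_lt
  have hT : IsSuccLimit (α * lam) := isSuccLimit_mul_right hα0 hl
  have h1l : 1 < lam := by simpa using hl.add_one_lt hl.bot_lt
  have hωl : ω ≤ lam := omega0_le_of_isSuccLimit hl
  have h1lam : 1 + lam = lam := one_add_of_omega0_le hωl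
  -- every earlier time is before some earlier pass
  have hex : ∀ t < α * lam, ∃ ρ, ρ < lam ∧ 1 ≤ ρ ∧ t < α * ρ := by
    intro t ht
    obtain ⟨ρ, hρ, htρ⟩ := (lt_mul_iff_of_isSuccLimit hl).1 ht
    exact ⟨max ρ 1, max_lt hρ h1l, le_max_right _ _, htρ.trans_le (by gcongr; exact le_max_left _ _)⟩
  -- bits which are `0` at the beginning of all earlier passes are `0`
  have hfalse : ∀ i d, (∀ ρ < lam, 1 ≤ ρ → tp α (α * ρ) i d = false) →
      tp α (α * lam) i d = false := by
    intro i d hd
    refine tape_limit_false hT fun s hs => ?_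
    obtain ⟨ρ, hρ, hρ1, hsρ⟩ := hex s hs
    by_contra hne
    rw [Bool.not_eq_false] at hne
    have := tape_mono _ _ hsρ.le _ _ hne
    rw [hd ρ hρ hρ1] at this
    exact absurd this (by simp)
  have hfalse' : ∀ i d, tp α (α * lam) i d = false → ∀ ρ < lam, tp α (α * ρ) i d = false := by
    intro i d hd ρ hρ
    by_contra hne
    rw [Bool.not_eq_false] at hne
    have := tape_mono (α * lam) (α * ρ) (by gcongr) _ _ hne
    rw [hd] at this
    exact absurd this (by simp)
  constructor
  · have hz : infLim (α * lam) (fun s _ => (run α prog s).head) = 0 := by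
      apply infLim_eq
      · exact ⟨0, hT.bot_lt, fun r _ _ => zero_le⟩
      · intro s hs
        obtain ⟨ρ, hρ, hρ1, hsρ⟩ := hex s hs
        exact ⟨α * ρ, by gcongr, hsρ.le, (h ρ hρ hρ1).head⟩
    rw [run_limit hT]
    simp only [limitConfig]
    rw [hz, if_neg hα0.ne]
  · unfold st
    rw [run_limit hT]
    refine infLim_eq ?_ ?_
    · exact ⟨0, hT.bot_lt, fun r _ _ => Fin.zero_le _⟩
    · intro s hs
      obtain ⟨ρ, hρ, hρ1, hsρ⟩ := hex s hs
      exact ⟨α * ρ, by gcongr, hsρ.le, (h ρ hρ hρ1).state⟩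
  · exact tape_mono (α * lam) (α * 1) (by gcongr) _ _ (h 1 h1l le_rfl).y0
  · intro c hc0 hc
    rw [h1lam]
    constructor
    · intro hy
      by_contra hlc
      have := hfalse 2 c fun ρ hρ hρ1 => by
        have h2 := ((h ρ hρ hρ1).bar c hc0 hc).not.2 (fun hlt => hlc (hlt.trans ?_))
        · simpa using h2
        · have := (add_lt_add_iff_left (1 : Ordinal)).2 hρ
          rwa [h1lam] at this
      rw [hy] at this
      exact absurd this (by simp)
    · intro hlt
      have h2 : c + 1 < lam := hl.add_one_lt hlt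
      refine tape_mono (α * lam) (α * (c + 1)) (by gcongr) _ _ ?_
      refine ((h (c + 1) h2 (le_add_of_nonneg_left zero_le)).bar c hc0 hc).2 ?_
      exact (lt_add_one c).trans_le le_add_self
  · intro c hc h1 h2
    refine hfalse 1 c fun ρ hρ hρ1 => (h ρ hρ hρ1).low c hc (le_trans ?_ h1) ?_
    · gcongr
    · exact (opow_dvd_opow ω hρ.le).trans h2
  · intro c hc h1 hx j hj1 hj
    have hlt : ∀ j < lam, ω ^ j ∣ c := by
      intro j hj
      rcases eq_or_ne j 0 with rfl | hj0
      · simp
      have hj' : 1 + j < lam := by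
        have := (add_lt_add_iff_left (1 : Ordinal)).2 hj
        rwa [h1lam] at this
      refine (h (1 + j) hj' le_self_add).up c hc (lt_of_le_of_lt ?_ h1)
        (hfalse' 1 c hx _ hj') j (one_le_iff_ne_zero.2 hj0) le_rfl
      gcongr
    have hjl : j ≤ lam := le_add_self.trans hj
    rcases hjl.lt_or_eq with hjl | rfl
    · exact hlt j hjl
    · exact opow_dvd_of_forall hl hlt
  · intro h1
    exact absurd h1 h1l.ne'
  · intro t ht
    obtain ⟨ρ, hρ, hρ1, htρ⟩ := hex t ht
    exact (h ρ hρ hρ1).nh t htρ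

/-- The invariant holds at the beginning of all passes `1 ≤ ρ ≤ κ`. -/
theorem inv_all {κ : Ordinal.{0}} (hκ : IsSuccLimit κ) (hκα : κ < ω ^ κ) :
    ∀ ρ, 1 ≤ ρ → ρ ≤ κ → Inv (ω ^ κ) ρ := by
  have hα : IsSuccLimit (ω ^ κ) := isSuccLimit_of_dvd (opow_pos _ omega0_pos).ne'
    (omega_dvd_opow (one_le_iff_ne_zero.2 hκ.bot_lt.ne'))
  have hα2 : ω ≤ ω ^ κ := omega0_le_of_isSuccLimit hα
  intro ρ
  induction ρ using limitRecOn with
  | zero => intro h; simp at h
  | add_one ρ ih =>
    intro _ h2
    rcases eq_or_ne ρ 0 with rfl | hρ0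
    · rw [zero_add]
      exact Inv.one hα hα2
    · have hρκ : ρ < κ := (lt_add_one ρ).trans_le h2
      have h1 : 1 ≤ ρ := one_le_iff_ne_zero.2 hρ0
      refine (ih h1 hρκ.le).add_one hα rfl h1 hρκ ?_
      have := (add_lt_add_iff_left (1 : Ordinal)).2 hρκ
      rw [one_add_of_omega0_le (omega0_le_of_isSuccLimit hκ)] at this
      exact this.trans hκα
  | limit lam hl ih =>
    intro _ h2
    exact Inv.limit hα hl fun ρ hρ h1 => ih ρ hρ h1 (hρ.le.trans h2)

/-- The sieving program halts on the tape of length `ω ^ κ` beyond the cell `κ`, if `κ` is a limit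
ordinal with `κ < ω ^ κ`. -/
theorem prog_halts {κ : Ordinal.{0}} (hκ : IsSuccLimit κ) (hκα : κ < ω ^ κ) :
    HaltsAt (ω ^ κ) prog (κ + 1 + 1) := by
  have hα : IsSuccLimit (ω ^ κ) := isSuccLimit_of_dvd (opow_pos _ omega0_pos).ne'
    (omega_dvd_opow (one_le_iff_ne_zero.2 hκ.bot_lt.ne'))
  have h1κ : 1 < κ := by simpa using hκ.add_one_lt hκ.bot_lt
  have hI := inv_all hκ hκα κ h1κ.le le_rfl
  have h1 : 1 + κ = κ := one_add_of_omega0_le (omega0_le_of_isSuccLimit hκ)
  have hp := hI.passHyp hα (by rwa [h1])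
  set α := ω ^ κ with hαdef
  set t1 := α * κ + α with ht1
  rw [h1] at hp
  -- there are no marks left
  have hmarks : ∀ p, κ < p → p < α → tp α (α * κ) 1 p = true := by
    intro p hp1 hp2
    by_contra hx
    rw [Bool.not_eq_true] at hx
    have := hI.up p hp2 (by rwa [h1]) hx κ h1κ.le h1.le
    have h0 : p ≠ 0 := by rintro rfl; simp at hp1
    exact absurd (le_of_dvd h0 this) (not_le.2 hp2)
  have hst : st α t1 = 1 := by
    refine hp.no_marks hα (lt_add_one κ) (c := α) ?_ le_rfl fun p hp1 hp2 =>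
      hmarks p ((lt_add_one κ).trans_le hp1) hp2
    exact (hα.add_one_lt (hα.add_one_lt hκα)).le
  have hhead : (run α prog t1).head = 0 := (sweep_end hα hI.head).1
  have hy0 : tp α t1 2 0 = true := tape_mono t1 (α * κ) le_self_add _ _ hI.y0
  have hst1 : st α (t1 + 1) = 3 := by
    rw [st_after_zero hα hhead, hst, δ1 (s := fun i => tp α t1 i 0) hy0]
  have hκ1 : κ + 1 < α := hα.add_one_lt hκα
  have hbar : ∀ c, 1 ≤ c → c ≤ κ + 1 → st α (t1 + c) = 3 :=
    (isPass hα hhead).bar (g := κ + 1) (Or.inr rfl) hst1 hκ1.le fun c hc0 hc =>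
      (hp.y_after hα hc0 (hc.trans hκ1)).2 hc
  have hy : tp α t1 2 (κ + 1) = false := by
    have := (hp.y_after hα (c := κ + 1) (hκ.bot_lt.trans (lt_add_one κ)) hκ1).not.2
      (lt_irrefl _)
    simpa using this
  have hfin : st α (t1 + (κ + 1 + 1)) = 5 := by
    have := (isPass hα hhead).succ (κ + 1) hκ1
    rw [hbar _ (le_add_of_nonneg_left zero_le) le_rfl,
      δ3' (s := fun i => tp α t1 i (κ + 1)) hy] at this
    exact this
  refine ⟨t1 + (κ + 1 + 1), hfin, ?_, ?_⟩
  · intro s hs
    rcases lt_or_ge s t1 with h2 | h2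
    · rcases lt_or_ge s (α * κ) with h3 | h3
      · exact hI.nh s h3
      · obtain ⟨c, rfl⟩ := exists_add_of_le h3
        have hc : c < α := by simpa [ht1] using h2
        rcases eq_or_ne c 0 with rfl | hc0
        · change st α (α * κ + 0) ≠ 5
          rw [add_zero, hI.state]; decide
        · exact hp.ne_halt hα (pos_iff_ne_zero.2 hc0) hc
    · obtain ⟨c, rfl⟩ := exists_add_of_le h2
      have hc : c < κ + 1 + 1 := by simpa using hs
      change st α (t1 + c) ≠ 5
      rcases eq_or_ne c 0 with rfl | hc0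
      · rw [add_zero, hst]; decide
      · rw [hbar c (one_le_iff_ne_zero.2 hc0) (lt_add_one_iff.1 hc)]; decide
  · exact (sweep hα hhead _ (hα.add_one_lt hκ1)).1

/-! ### The bound for `ω₁` -/

instance : Countable Program := by
  have e : Program ≃ Σ n : ℕ, Fin (n + 1) × Fin (n + 1) ×
      (Fin (n + 1) → (Fin 3 → Bool) → Fin (n + 1) × (Fin 3 → Bool) × Dir) :=
    { toFun := fun P => ⟨P.n, P.start, P.halt, P.δ⟩
      invFun := fun x => ⟨x.1, x.2.1, x.2.2.1, x.2.2.2⟩
      left_inv := fun P => rfl
      right_inv := fun x => rfl }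
  have : Finite Dir := Finite.of_injective (fun d : Dir => match d with
    | .left => true
    | .right => false) (by intro a b h; cases a <;> cases b <;> simp_all)
  exact e.countable_iff.2 inferInstance

theorem theta_omega_one_lt : theta (ω_ 1) < ω_ 1 := by
  unfold theta
  rw [sSup_eq_iSup']
  have : Countable {μ : Ordinal.{0} | μ < ω_ 1 ∧ ∃ P, HaltsAt (ω_ 1) P μ} := by
    have : Function.Injective (fun μ : {μ : Ordinal.{0} | μ < ω_ 1 ∧ ∃ P, HaltsAt (ω_ 1) P μ} =>
        μ.2.2.choose) := by
      intro μ ν h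
      have h1 := μ.2.2.choose_spec
      have h2 := ν.2.2.choose_spec
      simp only at h
      rw [h] at h1
      exact Subtype.ext (h1.unique h2)
    exact this.countable
  exact iSup_lt_omega_one fun μ => μ.2.1

theorem le_theta {α μ : Ordinal.{0}} (hμ : μ < α) {P : Program} (h : HaltsAt α P μ) :
    μ ≤ theta α :=
  le_csSup ⟨α, fun _ hx => hx.1.le⟩ ⟨hμ, P, h⟩

/-- The function `α ↦ θ_α` is not monotone. -/
theorem result : ∃ α β : Ordinal.{0}, MulClosed α ∧ MulClosed β ∧ α < β ∧ theta β < theta α := by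
  set η : Ordinal.{0} := theta (ω_ 1) + 1 with hη
  have hη1 : η < ω_ 1 := isPrincipal_add_omega 1 theta_omega_one_lt (one_lt_omega0.trans omega0_lt_omega_one)
  have hη0 : η ≠ 0 := by simp [hη]
  set κ : Ordinal.{0} := ω ^ η with hκ
  have hκl : IsSuccLimit κ := isSuccLimit_of_dvd (opow_pos _ omega0_pos).ne'
    (omega_dvd_opow (one_le_iff_ne_zero.2 hη0))
  have hηκ : η < κ := by
    refine lt_of_le_of_ne (right_le_opow η one_lt_omega0) fun h => ?_
    rw [← h] at hκl
    exact not_isSuccLimit_add_one _ hκl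
  have hκα : κ < ω ^ κ := by
    rw [hκ, opow_lt_opow_iff_right one_lt_omega0]
    exact hηκ
  have hω : ω < ω_ 1 := omega0_lt_omega_one
  have hκ1 : κ < ω_ 1 := isPrincipal_opow_omega 1 hω hη1
  have hα1 : ω ^ κ < ω_ 1 := isPrincipal_opow_omega 1 hω hκ1
  refine ⟨ω ^ κ, ω_ 1, ⟨?_, ?_⟩, ⟨hω.le, ?_⟩, hα1, ?_⟩
  · exact omega0_le_of_isSuccLimit (isSuccLimit_of_dvd (opow_pos _ omega0_pos).ne'
      (omega_dvd_opow (one_le_iff_ne_zero.2 hκl.bot_lt.ne')))
  · intro μ hμ ν hν
    exact isPrincipal_mul_omega0_opow_opow η hμ hν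
  · intro μ hμ ν hν
    exact isPrincipal_mul_omega 1 hμ hν
  · have hα : IsSuccLimit (ω ^ κ) := isSuccLimit_of_dvd (opow_pos _ omega0_pos).ne'
      (omega_dvd_opow (one_le_iff_ne_zero.2 hκl.bot_lt.ne'))
    have h1 : κ + 1 + 1 ≤ theta (ω ^ κ) :=
      le_theta (hα.add_one_lt (hα.add_one_lt hκα)) (prog_halts hκl hκα)
    calc theta (ω_ 1) < η := lt_add_one _
      _ < κ := hηκ
      _ ≤ κ + 1 + 1 := (lt_add_one κ).le.trans (lt_add_one _).le
      _ ≤ theta (ω ^ κ) := h1

end Pool.Agent.Results.MP_5db8c7_lc.LiminfStatesNotMonotone
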