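import Mathlib

/-!
# Long-tape ITTMs with a distinguished limit state: `θ_α = ω * 2` for all `α > ω`

Here the machine model is read literally: at limit times the state is one fixed limit state, each
bit is the inferior limit of its earlier values, and the head is at the inferior limit of its
earlier positions (or at `0` if that is `α`).

A block `[lam, lam + ω)` with `lam > 0` a limit can only be entered through its first cell and in
the limit state. Hence all these blocks have the same local history `loc P`, indexed by local time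
(`sim`), and the block at `lam ≥ ω + ω` is always strictly behind the block at `ω` while the head
is in it (`behind`). So a program which halts in the block at `lam` would have halted before in
the block at `ω`: no cell `≥ ω + ω` is reachable (`halts_lt`). All cells `ω + m` are reachable.
-/


namespace Pool.Agent.Results.MP_5db8c7_lc.LiteralLimitStateMonotone

open Ordinal Order Set

/-- The two directions in which the head can be moved. -/
inductive Dir
  | left
  | right

/-- An ordinary Turing machine program: finitely many states `0, ..., n`, a start state, a halting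
state, the distinguished limit state, and a transition function. In one step the machine reads the
three bits below its head (tape `0` = input, tape `1` = work, tape `2` = output), changes its
state, overwrites the three bits and moves its head. -/
structure Program where
  n : ℕ
  start : Fin (n + 1)
  halt : Fin (n + 1)
  lim : Fin (n + 1)
  δ : Fin (n + 1) → (Fin 3 → Bool) → Fin (n + 1) × (Fin 3 → Bool) × Dir

/-- A configuration: current state, position of the head, and the bit in each cell of the three
tapes. -/
structure Config (P : Program) where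
  state : Fin (P.n + 1)
  head : Ordinal.{0}
  tape : Fin 3 → Ordinal.{0} → Bool

/-- The inferior limit of the values `f s` for times `s < t` (used at limit times `t`): the
supremum of all eventual lower bounds. -/
noncomputable def infLim {X : Type*} [ConditionallyCompleteLattice X] (t : Ordinal.{0})
    (f : (s : Ordinal.{0}) → s < t → X) : X :=
  sSup {m | ∃ s, s < t ∧ ∀ r (hr : r < t), s ≤ r → m ≤ f r hr}

/-- Moving the head left: from `μ + 1` to `μ`, and from a limit position (or from `0`) to `0`. -/
noncomputable def moveLeft (μ : Ordinal.{0}) : Ordinal.{0} :=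
  open Classical in if IsSuccPrelimit μ then 0 else pred μ

/-- One step of an ordinary Turing machine. -/
noncomputable def step (P : Program) (c : Config P) : Config P where
  state := (P.δ c.state fun i => c.tape i c.head).1
  head :=
    match (P.δ c.state fun i => c.tape i c.head).2.2 with
    | .left => moveLeft c.head
    | .right => c.head + 1
  tape := fun i => Function.update (c.tape i) c.head ((P.δ c.state fun i => c.tape i c.head).2.1 i)

/-- The configuration at a limit time `t`: the machine is in the limit state, the head position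
and every bit are the inferior limits of the earlier ones, except that the head is at `0` if the
inferior limit of its earlier positions is the tape length `α`. -/
noncomputable def limitConfig (α : Ordinal.{0}) (P : Program) (t : Ordinal.{0})
    (c : (s : Ordinal.{0}) → s < t → Config P) : Config P where
  state := P.lim
  head := open Classical in
    if infLim t (fun s hs => (c s hs).head) = α then 0 else infLim t fun s hs => (c s hs).head
  tape := fun i μ => infLim t fun s hs => (c s hs).tape i μ

/-- The configuration at time `t` of the machine with tape length `α` running the program `P`,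
started with all cells `0`. -/
noncomputable def run (α : Ordinal.{0}) (P : Program) (t : Ordinal.{0}) : Config P :=
  limitRecOn t ⟨P.start, 0, fun _ _ => false⟩ (fun _ c => step P c)
    (fun t _ c => limitConfig α P t c)

/-- The program `P` halts (reaches its halting state for the first time) with its head at the cell
`μ`. -/
def HaltsAt (α : Ordinal.{0}) (P : Program) (μ : Ordinal.{0}) : Prop :=
  ∃ t, (run α P t).state = P.halt ∧ (∀ s < t, (run α P s).state ≠ P.halt) ∧ (run α P t).head = μ

/-- The supremum of the reachable cells. -/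
noncomputable def theta (α : Ordinal.{0}) : Ordinal.{0} :=
  sSup {μ | μ < α ∧ ∃ P, HaltsAt α P μ}

/-- Infinite multiplicatively closed ordinals. -/
def MulClosed (α : Ordinal.{0}) : Prop :=
  ω ≤ α ∧ ∀ μ < α, ∀ ν < α, μ * ν < α

/-! ### Inferior limits -/

section basic

variable {X : Type*} [ConditionallyCompleteLattice X]

theorem infLim_eq {t : Ordinal.{0}} {f : (s : Ordinal.{0}) → s < t → X} {x : X}
    (h1 : ∃ s, s < t ∧ ∀ r (hr : r < t), s ≤ r → x ≤ f r hr)
    (h2 : ∀ s, s < t → ∃ r, ∃ hr : r < t, s ≤ r ∧ f r hr = x) : infLim t f = x := by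
  apply IsGreatest.csSup_eq
  refine ⟨h1, ?_⟩
  rintro m ⟨s, hs, hm⟩
  obtain ⟨r, hr, hsr, rfl⟩ := h2 s hs
  exact hm r hr hsr

theorem infLim_const {t : Ordinal.{0}} {f : (s : Ordinal.{0}) → s < t → X} {x : X}
    (s : Ordinal.{0}) (hs : s < t) (h : ∀ r (hr : r < t), s ≤ r → f r hr = x) :
    infLim t f = x := by
  apply infLim_eq
  · exact ⟨s, hs, fun r hr hsr => (h r hr hsr).ge⟩
  · intro s' hs'
    exact ⟨max s s', max_lt hs hs', le_max_right _ _, h _ _ (le_max_left _ _)⟩

theorem infLim_congr {t : Ordinal.{0}} {f g : (s : Ordinal.{0}) → s < t → X}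
    (s : Ordinal.{0}) (hs : s < t) (h : ∀ r (hr : r < t), s ≤ r → f r hr = g r hr) :
    infLim t f = infLim t g := by
  unfold infLim
  congr 1
  ext m
  constructor
  · rintro ⟨s', hs', hm⟩
    refine ⟨max s s', max_lt hs hs', fun r hr hsr => ?_⟩
    rw [← h r hr ((le_max_left _ _).trans hsr)]
    exact hm r hr ((le_max_right _ _).trans hsr)
  · rintro ⟨s', hs', hm⟩
    refine ⟨max s s', max_lt hs hs', fun r hr hsr => ?_⟩
    rw [h r hr ((le_max_left _ _).trans hsr)]
    exact hm r hr ((le_max_right _ _).trans hsr)

end basic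

section ordinal

variable {t : Ordinal.{0}} {f : (s : Ordinal.{0}) → s < t → Ordinal.{0}}

theorem le_infLim {m B : Ordinal.{0}} (hB : ∀ r (hr : r < t), f r hr ≤ B)
    (h : ∃ s, s < t ∧ ∀ r (hr : r < t), s ≤ r → m ≤ f r hr) : m ≤ infLim t f := by
  refine le_csSup ⟨B, ?_⟩ h
  rintro m ⟨s, hs, hm⟩
  exact (hm s hs le_rfl).trans (hB s hs)

theorem lt_of_lt_infLim {m : Ordinal.{0}} (h : m < infLim t f) :
    ∃ s, s < t ∧ ∀ r (hr : r < t), s ≤ r → m < f r hr := by
  by_contra hno
  push Not at hno
  refine absurd h (not_lt.2 ?_)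
  apply csSup_le'
  rintro x ⟨s, hs, hm⟩
  obtain ⟨r, hr, hsr, hle⟩ := hno s hs
  exact (hm r hr hsr).trans hle

theorem infLim_le {B : Ordinal.{0}} (hB : ∀ r (hr : r < t), f r hr ≤ B) : infLim t f ≤ B := by
  apply csSup_le'
  rintro m ⟨s, hs, hm⟩
  exact (hm s hs le_rfl).trans (hB s hs)

theorem infLim_const_add (a : Ordinal.{0}) {B : Ordinal.{0}} (ht : 0 < t)
    (hB : ∀ r (hr : r < t), f r hr ≤ B) :
    infLim t (fun s hs => a + f s hs) = a + infLim t f := by
  have hB' : ∀ r (hr : r < t), a + f r hr ≤ a + B := fun r hr => by gcongr; exact hB r hr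
  apply le_antisymm
  · apply csSup_le'
    rintro m ⟨s, hs, hm⟩
    rcases le_total m a with h | h
    · exact h.trans le_self_add
    · obtain ⟨m', rfl⟩ := exists_add_of_le h
      gcongr
      refine le_infLim hB ⟨s, hs, fun r hr hsr => ?_⟩
      simpa using hm r hr hsr
  · refine le_of_forall_lt fun x hx => ?_
    rcases lt_or_ge x a with hxa | hxa
    · refine hxa.trans_le (le_infLim hB' ⟨0, ht, fun r hr _ => le_self_add⟩)
    · obtain ⟨x', rfl⟩ := exists_add_of_le hxa
      have hx' : x' < infLim t f := by simpa using hx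
      obtain ⟨s, hs, h⟩ := lt_of_lt_infLim hx'
      have : a + x' + 1 ≤ infLim t fun s hs => a + f s hs := by
        refine le_infLim hB' ⟨s, hs, fun r hr hsr => ?_⟩
        rw [add_assoc]
        gcongr
        exact add_one_le_of_lt (h r hr hsr)
      exact (lt_add_one _).trans_le this

end ordinal

theorem infLim_id {c : Ordinal.{0}} (hc : IsSuccLimit c) : infLim c (fun s _ => s) = c := by
  unfold infLim
  have : {m | ∃ s, s < c ∧ ∀ r (_ : r < c), s ≤ r → m ≤ r} = Iio c := by
    ext m
    constructor
    · rintro ⟨s, hs, hm⟩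
      exact (hm s hs le_rfl).trans_lt hs
    · intro hm
      exact ⟨m, hm, fun r _ h => h⟩
  rw [this]
  exact hc.sSup_Iio

/-! ### The run -/

variable {α : Ordinal.{0}} {P : Program}

theorem run_zero : run α P 0 = ⟨P.start, 0, fun _ _ => false⟩ := by
  simp [run]

theorem run_succ (t : Ordinal.{0}) : run α P (t + 1) = step P (run α P t) := by
  simp [run]

theorem run_limit {t : Ordinal.{0}} (ht : IsSuccLimit t) :
    run α P t = limitConfig α P t fun s _ => run α P s := by
  rw [run, limitRecOn_limit _ _ _ _ ht]
  rfl

theorem moveLeft_add_one (μ : Ordinal.{0}) : moveLeft (μ + 1) = μ := by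
  unfold moveLeft
  rw [if_neg, pred_add_one]
  exact not_isSuccPrelimit_add_one μ

theorem moveLeft_of_limit {μ : Ordinal.{0}} (h : IsSuccPrelimit μ) : moveLeft μ = 0 := by
  unfold moveLeft
  rw [if_pos h]

theorem moveLeft_cases (μ : Ordinal.{0}) :
    moveLeft μ = 0 ∨ ∃ ν, μ = ν + 1 ∧ moveLeft μ = ν := by
  rcases zero_or_succ_or_isSuccLimit μ with rfl | ⟨ν, rfl⟩ | h
  · left; exact moveLeft_of_limit isSuccPrelimit_zero
  · right; exact ⟨ν, rfl, moveLeft_add_one ν⟩
  · left; exact moveLeft_of_limit h.isSuccPrelimit

theorem head_succ_cases (t : Ordinal.{0}) :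
    (run α P (t + 1)).head = moveLeft (run α P t).head ∨
      (run α P (t + 1)).head = (run α P t).head + 1 := by
  rw [run_succ]
  simp only [step]
  split
  · left; rfl
  · right; rfl

theorem head_limit {t : Ordinal.{0}} (ht : IsSuccLimit t) (h0 : (run α P t).head ≠ 0) :
    (run α P t).head = infLim t fun s _ => (run α P s).head := by
  rw [run_limit ht] at h0 ⊢
  simp only [limitConfig] at h0 ⊢
  split_ifs at h0 ⊢ with h
  · exact absurd rfl h0
  · rfl

theorem head_lt (hα : IsSuccLimit α) (t : Ordinal.{0}) : (run α P t).head < α := by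
  induction t using limitRecOn with
  | zero => rw [run_zero]; exact hα.bot_lt
  | add_one t ih =>
    rcases head_succ_cases (α := α) (P := P) t with h | h
    · rw [h]
      rcases moveLeft_cases (run α P t).head with h1 | ⟨ν, h1, h2⟩
      · rw [h1]; exact hα.bot_lt
      · rw [h2]
        rw [h1] at ih
        exact (lt_add_one ν).trans ih
    · rw [h]; exact hα.add_one_lt ih
  | limit t ht ih =>
    rw [run_limit ht]
    simp only [limitConfig]
    split_ifs with h
    · exact hα.bot_lt
    · exact lt_of_le_of_ne (infLim_le fun r hr => (ih r hr).le) h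

/-- If the head is at or beyond a limit cell `lam` and never visits `0`, it stays there. -/
theorem persist (hα : IsSuccLimit α) {lam : Ordinal.{0}} (hl : IsSuccLimit lam) {r : Ordinal.{0}}
    (hr : lam ≤ (run α P r).head) : ∀ t, r ≤ t →
    (∀ s, r ≤ s → s ≤ t → (run α P s).head ≠ 0) → lam ≤ (run α P t).head := by
  intro t
  induction t using limitRecOn with
  | zero =>
    intro h _
    have : r = 0 := nonpos_iff_eq_zero.1 h
    rwa [← this]
  | add_one t ih =>
    intro hrt hs
    rcases hrt.eq_or_lt with rfl | hrt
    · exact hr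
    have hrt' := lt_add_one_iff.1 hrt
    have h1 := ih hrt' fun s h2 h3 => hs s h2 (h3.trans (lt_add_one t).le)
    have h0 := hs (t + 1) hrt.le le_rfl
    rcases head_succ_cases (α := α) (P := P) t with h | h
    · rw [h] at h0 ⊢
      rcases moveLeft_cases (run α P t).head with h4 | ⟨ν, h4, h5⟩
      · exact absurd h4 h0
      · rw [h5]
        rw [h4] at h1
        by_contra hlt
        exact absurd (hl.add_one_lt (not_le.1 hlt)) (not_lt.2 h1)
    · rw [h]; exact h1.trans (lt_add_one _).le
  | limit t ht ih =>
    intro hrt hs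
    rcases hrt.eq_or_lt with rfl | hrt
    · exact hr
    rw [head_limit ht (hs t hrt.le le_rfl)]
    refine le_infLim (fun s _ => (head_lt hα s).le) ⟨r, hrt, fun s hst hrs => ?_⟩
    exact ih s hst hrs fun s' h2 h3 => hs s' h2 (h3.trans hst.le)


/-! ### The local history of a block `[lam, lam + ω)` -/

open Classical in
/-- The local history of a block `[lam, lam + ω)`, indexed by local time (only the times at which
the head is in the block are counted). The second component says that the head has just left the
block; the first component then contains the configuration at the next arrival. -/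
noncomputable def loc (P : Program) (τ : Ordinal.{0}) : Config P × Prop :=
  limitRecOn τ (⟨P.lim, 0, fun _ _ => false⟩, True)
    (fun _ c =>
      if (P.δ c.1.state fun i => c.1.tape i c.1.head).2.2 = .left ∧ c.1.head = 0 then
        (⟨P.lim, 0, (step P c.1).tape⟩, True)
      else (step P c.1, False))
    (fun τ _ c => (limitConfig ω P τ fun s hs => (c s hs).1,
      infLim τ (fun s hs => (c s hs).1.head) = ω ∨
        ∀ s, s < τ → ∃ r, ∃ hr : r < τ, s ≤ r ∧ (c r hr).2))

theorem loc_zero : loc P 0 = (⟨P.lim, 0, fun _ _ => false⟩, True) := by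
  simp [loc]

theorem loc_succ_left {τ : Ordinal.{0}}
    (h : (P.δ (loc P τ).1.state fun i => (loc P τ).1.tape i (loc P τ).1.head).2.2 = .left)
    (h0 : (loc P τ).1.head = 0) :
    loc P (τ + 1) = (⟨P.lim, 0, (step P (loc P τ).1).tape⟩, True) := by
  have : loc P (τ + 1) = _ := limitRecOn_add_one τ _ _ _
  rw [this]
  exact if_pos ⟨h, h0⟩

theorem loc_succ {τ : Ordinal.{0}}
    (h : ¬ ((P.δ (loc P τ).1.state fun i => (loc P τ).1.tape i (loc P τ).1.head).2.2 = .left ∧
      (loc P τ).1.head = 0)) :
    loc P (τ + 1) = (step P (loc P τ).1, False) := by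
  have : loc P (τ + 1) = _ := limitRecOn_add_one τ _ _ _
  rw [this]
  exact if_neg h

theorem loc_limit {τ : Ordinal.{0}} (hτ : IsSuccLimit τ) :
    loc P τ = (limitConfig ω P τ fun s _ => (loc P s).1,
      infLim τ (fun s _ => (loc P s).1.head) = ω ∨
        ∀ s, s < τ → ∃ r, ∃ _ : r < τ, s ≤ r ∧ (loc P r).2) := by
  rw [loc, limitRecOn_limit _ _ _ _ hτ]
  rfl

theorem loc_head_lt (τ : Ordinal.{0}) : (loc P τ).1.head < ω := by
  induction τ using limitRecOn with
  | zero => rw [loc_zero]; exact omega0_pos
  | add_one τ ih =>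
    by_cases h : (P.δ (loc P τ).1.state fun i => (loc P τ).1.tape i (loc P τ).1.head).2.2 = .left ∧
      (loc P τ).1.head = 0
    · rw [loc_succ_left h.1 h.2]; exact omega0_pos
    · rw [loc_succ h]
      simp only [step]
      split
      · rcases moveLeft_cases (loc P τ).1.head with h1 | ⟨ν, h1, h2⟩
        · rw [h1]; exact omega0_pos
        · rw [h2]
          rw [h1] at ih
          exact (lt_add_one ν).trans ih
      · exact isSuccLimit_omega0.add_one_lt ih
  | limit τ hτ ih =>
    rw [loc_limit hτ]
    simp only [limitConfig]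
    split_ifs with h
    · exact omega0_pos
    · exact lt_of_le_of_ne (infLim_le fun r hr => (ih r hr).le) h

theorem loc_out {τ : Ordinal.{0}} (h : (loc P τ).2) :
    (loc P τ).1.head = 0 ∧ (loc P τ).1.state = P.lim := by
  induction τ using limitRecOn with
  | zero => rw [loc_zero]; exact ⟨rfl, rfl⟩
  | add_one τ ih =>
    by_cases h1 : (P.δ (loc P τ).1.state fun i => (loc P τ).1.tape i (loc P τ).1.head).2.2 = .left ∧
      (loc P τ).1.head = 0
    · rw [loc_succ_left h1.1 h1.2]; exact ⟨rfl, rfl⟩
    · rw [loc_succ h1] at h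
      exact absurd h id
  | limit τ hτ ih =>
    rw [loc_limit hτ] at h ⊢
    refine ⟨?_, rfl⟩
    simp only [limitConfig]
    split_ifs with h1
    · rfl
    · apply infLim_eq
      · exact ⟨0, hτ.bot_lt, fun r _ _ => zero_le⟩
      · intro s hs
        obtain ⟨r, hr, hsr, hout⟩ := (h.resolve_left h1) s hs
        exact ⟨r, hr, hsr, (ih r hr hout).1⟩

/-- The cell `μ` is in the block with first cell `lam`. -/
def InB (lam μ : Ordinal.{0}) : Prop := lam ≤ μ ∧ μ < lam + ω

theorem inB_iff {lam μ : Ordinal.{0}} : InB lam μ ↔ ∃ k < ω, μ = lam + k := by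
  constructor
  · rintro ⟨h1, h2⟩
    obtain ⟨k, rfl⟩ := exists_add_of_le h1
    exact ⟨k, by simpa using h2, rfl⟩
  · rintro ⟨k, hk, rfl⟩
    exact ⟨le_self_add, by gcongr⟩

open Classical in
/-- The local time of the block `[lam, lam + ω)` at the global time `t`. -/
noncomputable def tau (α : Ordinal.{0}) (P : Program) (lam t : Ordinal.{0}) : Ordinal.{0} :=
  limitRecOn t 0 (fun t τ => if InB lam (run α P t).head then τ + 1 else τ)
    (fun t _ τ => ⨆ s : Iio t, τ s.1 s.2)

section tau

variable {lam : Ordinal.{0}}

theorem tau_zero : tau α P lam 0 = 0 := by simp [tau]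

theorem tau_succ_in {t : Ordinal.{0}} (h : InB lam (run α P t).head) :
    tau α P lam (t + 1) = tau α P lam t + 1 := by
  simp [tau, h]

theorem tau_succ_out {t : Ordinal.{0}} (h : ¬ InB lam (run α P t).head) :
    tau α P lam (t + 1) = tau α P lam t := by
  simp [tau, h]

theorem tau_limit {t : Ordinal.{0}} (ht : IsSuccLimit t) :
    tau α P lam t = ⨆ s : Iio t, tau α P lam s.1 := by
  rw [tau, limitRecOn_limit _ _ _ _ ht]
  rfl

theorem tau_le_limit {t s : Ordinal.{0}} (ht : IsSuccLimit t) (hs : s < t) :
    tau α P lam s ≤ tau α P lam t := by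
  rw [tau_limit ht]
  exact le_ciSup (f := fun s : Iio t => tau α P lam s.1) (bddAbove_of_small) ⟨s, hs⟩

theorem lt_tau_limit {t σ : Ordinal.{0}} (ht : IsSuccLimit t) (h : σ < tau α P lam t) :
    ∃ s < t, σ < tau α P lam s := by
  rw [tau_limit ht] at h
  obtain ⟨s, hs⟩ := exists_lt_of_lt_ciSup' h
  exact ⟨s.1, s.2, hs⟩

theorem tau_mono {s t : Ordinal.{0}} (h : s ≤ t) : tau α P lam s ≤ tau α P lam t := by
  induction t using limitRecOn with
  | zero => rw [nonpos_iff_eq_zero.1 h]
  | add_one t ih =>
    rcases h.eq_or_lt with rfl | h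
    · rfl
    refine (ih (lt_add_one_iff.1 h)).trans ?_
    by_cases h1 : InB lam (run α P t).head
    · rw [tau_succ_in h1]; exact (lt_add_one _).le
    · rw [tau_succ_out h1]
  | limit t ht _ =>
    rcases h.eq_or_lt with rfl | h
    · rfl
    · exact tau_le_limit ht h

theorem tau_lt {s t : Ordinal.{0}} (h : s < t) (hs : InB lam (run α P s).head) :
    tau α P lam s < tau α P lam t := by
  have h1 := tau_mono (α := α) (P := P) (lam := lam) (add_one_le_of_lt h)
  rw [tau_succ_in hs] at h1
  exact (lt_add_one _).trans_le h1

theorem tau_const {s t : Ordinal.{0}} (h : s ≤ t)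
    (hs : ∀ r, s ≤ r → r < t → ¬ InB lam (run α P r).head) :
    tau α P lam t = tau α P lam s := by
  induction t using limitRecOn with
  | zero => rw [nonpos_iff_eq_zero.1 h]
  | add_one t ih =>
    rcases h.eq_or_lt with rfl | h
    · rfl
    have h' := lt_add_one_iff.1 h
    rw [tau_succ_out (hs t h' (lt_add_one t))]
    exact ih h' fun r h1 h2 => hs r h1 (h2.trans (lt_add_one t))
  | limit t ht ih =>
    rcases h.eq_or_lt with rfl | h
    · rfl
    apply le_antisymm
    · by_contra hlt
      obtain ⟨r, hr, hlt⟩ := lt_tau_limit ht (not_le.1 hlt)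
      rcases le_total s r with h1 | h1
      · rw [ih r hr h1 fun r' h2 h3 => hs r' h2 (h3.trans hr)] at hlt
        exact lt_irrefl _ hlt
      · exact absurd hlt (not_lt.2 (tau_mono h1))
    · exact tau_mono h.le

/-- Every local time is attained. -/
theorem exists_tau_eq {t σ : Ordinal.{0}} (h : σ < tau α P lam t) :
    ∃ s < t, tau α P lam s = σ ∧ InB lam (run α P s).head := by
  induction t using limitRecOn with
  | zero => rw [tau_zero] at h; simp at h
  | add_one t ih =>
    by_cases h1 : InB lam (run α P t).head
    · rw [tau_succ_in h1, lt_add_one_iff] at h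
      rcases h.eq_or_lt with rfl | h
      · exact ⟨t, lt_add_one t, rfl, h1⟩
      · obtain ⟨s, hs, h2⟩ := ih h
        exact ⟨s, hs.trans (lt_add_one t), h2⟩
    · rw [tau_succ_out h1] at h
      obtain ⟨s, hs, h2⟩ := ih h
      exact ⟨s, hs.trans (lt_add_one t), h2⟩
  | limit t ht ih =>
    obtain ⟨s, hs, h1⟩ := lt_tau_limit ht h
    obtain ⟨r, hr, h2⟩ := ih s hs h1
    exact ⟨r, hr.trans hs, h2⟩

/-- The head is in the block at cofinally many times before `t`. -/
def Cof (α : Ordinal.{0}) (P : Program) (lam t : Ordinal.{0}) : Prop :=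
  ∀ s < t, ∃ r, s ≤ r ∧ r < t ∧ InB lam (run α P r).head

theorem Cof.tau_lt {t s : Ordinal.{0}} (h : Cof α P lam t) (hs : s < t) :
    tau α P lam s < tau α P lam t := by
  obtain ⟨r, hsr, hr, h1⟩ := h s hs
  exact (tau_mono hsr).trans_lt (LiteralLimitStateMonotone.tau_lt hr h1)

theorem Cof.isSuccLimit {t : Ordinal.{0}} (h : Cof α P lam t) (ht : IsSuccLimit t) :
    IsSuccLimit (tau α P lam t) := by
  have h0 : 0 < tau α P lam t := (zero_le (a := tau α P lam 0)).trans_lt (h.tau_lt ht.bot_lt)
  rw [isSuccLimit_iff, isSuccPrelimit_iff_succ_lt]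
  refine ⟨by simpa using h0.ne', fun σ hσ => ?_⟩
  obtain ⟨s, hs, h1, h2⟩ := exists_tau_eq hσ
  have h3 := h.tau_lt (ht.add_one_lt hs)
  rw [tau_succ_in h2, h1] at h3
  exact h3

theorem Cof.infLim_eq {X : Type*} [ConditionallyCompleteLattice X] {t : Ordinal.{0}}
    (h : Cof α P lam t) (F : Ordinal.{0} → X) :
    infLim t (fun s _ => F (tau α P lam s)) = infLim (tau α P lam t) fun s _ => F s := by
  unfold infLim
  congr 1
  ext m
  constructor
  · rintro ⟨s, hs, hm⟩
    refine ⟨tau α P lam s, h.tau_lt hs, fun ρ hρ hsρ => ?_⟩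
    obtain ⟨r, hr, h1, h2⟩ := exists_tau_eq hρ
    rcases le_total s r with h3 | h3
    · have h5 : m ≤ F (tau α P lam r) := hm r hr h3
      rwa [h1] at h5
    · have h4 : tau α P lam s = ρ := le_antisymm hsρ (h1 ▸ tau_mono h3)
      have h5 : m ≤ F (tau α P lam s) := hm s hs le_rfl
      rwa [h4] at h5
  · rintro ⟨σ, hσ, hm⟩
    obtain ⟨s, hs, h1, h2⟩ := exists_tau_eq hσ
    refine ⟨s, hs, fun r hr hsr => hm _ (h.tau_lt hr) ?_⟩
    rw [← h1]
    exact tau_mono hsr

end tau

/-- If the head visits the block at cofinally many times before the limit time `t` and is not at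
`0` at time `t`, then it stays in the block from some time on. -/
theorem Cof.eventually (hα : IsSuccLimit α) {lam t : Ordinal.{0}} (hl : IsSuccLimit lam)
    (hc : Cof α P lam t) (ht : IsSuccLimit t) (h0 : (run α P t).head ≠ 0) :
    ∃ s < t, ∀ r, s ≤ r → r < t → InB lam (run α P r).head := by
  have h1 : 0 < infLim t fun s _ => (run α P s).head := by
    rw [← head_limit ht h0]
    exact pos_iff_ne_zero.2 h0
  obtain ⟨s, hs, hpos⟩ := lt_of_lt_infLim h1
  obtain ⟨r1, hsr, hr1, hin⟩ := hc s hs
  refine ⟨r1, hr1, fun r hr hrt => ⟨?_, ?_⟩⟩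
  · exact persist hα hl hin.1 r hr fun s' h2 h3 =>
      (hpos s' (h3.trans_lt hrt) (hsr.trans h2)).ne'
  · by_contra hno
    obtain ⟨r2, h2, h3, h4⟩ := hc r hrt
    have h5 := persist hα (isSuccLimit_add lam isSuccLimit_omega0) (not_lt.1 hno) r2 h2
      fun s' h6 h7 => (hpos s' (h7.trans_lt h3) ((hsr.trans hr).trans h6)).ne'
    exact absurd h4.2 (not_lt.2 h5)

/-- The block `[lam, lam + ω)` evolves according to its local history. -/
structure Sim (α : Ordinal.{0}) (P : Program) (lam t : Ordinal.{0}) : Prop where
  c1 : ∀ i, ∀ k < ω, (run α P t).tape i (lam + k) = (loc P (tau α P lam t)).1.tape i k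
  c2 : ∀ k < ω, (run α P t).head = lam + k →
    (loc P (tau α P lam t)).1.head = k ∧ (run α P t).state = (loc P (tau α P lam t)).1.state
  c3 : ¬ InB lam (run α P t).head → (loc P (tau α P lam t)).2
  c4 : InB lam (run α P t).head →
    (∃ s < t, ∀ r, s ≤ r → r < t → InB lam (run α P r).head) → ¬ (loc P (tau α P lam t)).2

theorem sim_succ {lam t : Ordinal.{0}} (hl : IsSuccLimit lam) (h : Sim α P lam t) :
    Sim α P lam (t + 1) := by
  by_cases hin : InB lam (run α P t).head
  · obtain ⟨k, hk, hk2⟩ := inB_iff.1 hin
    obtain ⟨hh, hst⟩ := h.c2 k hk hk2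
    -- both machines read the same symbols
    have hread : (fun i => (run α P t).tape i (run α P t).head) =
        fun i => (loc P (tau α P lam t)).1.tape i (loc P (tau α P lam t)).1.head := by
      funext i
      rw [hk2, hh]
      exact h.c1 i k hk
    set L := loc P (tau α P lam t) with hL
    have hδ : P.δ (run α P t).state (fun i => (run α P t).tape i (run α P t).head) =
        P.δ L.1.state fun i => L.1.tape i L.1.head := by rw [hread, hst]
    have htape : ∀ i, ∀ k' < ω, (run α P (t + 1)).tape i (lam + k') =
        (step P L.1).tape i k' := by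
      intro i k' hk'
      rw [run_succ]
      simp only [step]
      rw [hδ, hk2, hh]
      rcases eq_or_ne k' k with rfl | hne
      · simp
      · rw [Function.update_of_ne hne, Function.update_of_ne (by simpa using hne)]
        exact h.c1 i k' hk'
    by_cases hex : (P.δ L.1.state fun i => L.1.tape i L.1.head).2.2 = .left ∧ L.1.head = 0
    · -- the head leaves the block
      have hloc : loc P (tau α P lam (t + 1)) = (⟨P.lim, 0, (step P L.1).tape⟩, True) := by
        rw [tau_succ_in hin]
        exact loc_succ_left hex.1 hex.2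
      have hhead : (run α P (t + 1)).head = 0 := by
        rw [run_succ]
        simp only [step]
        rw [hδ, hex.1]
        simp only
        rw [hk2, ← hh, hex.2, add_zero]
        exact moveLeft_of_limit hl.isSuccPrelimit
      have hnot : ¬ InB lam (run α P (t + 1)).head := by
        rw [hhead]
        rintro ⟨h1, -⟩
        exact absurd hl.bot_lt (not_lt.2 h1)
      refine ⟨?_, ?_, ?_, ?_⟩
      · intro i k' hk'
        rw [hloc]
        exact htape i k' hk'
      · intro k' hk' h1
        exact absurd (inB_iff.2 ⟨k', hk', h1⟩) hnot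
      · intro _
        rw [hloc]
        trivial
      · intro h1
        exact absurd h1 hnot
    · -- the head stays in the block
      have hloc : loc P (tau α P lam (t + 1)) = (step P L.1, False) := by
        rw [tau_succ_in hin]
        exact loc_succ hex
      have hhead : (run α P (t + 1)).head = lam + (step P L.1).head := by
        rw [run_succ]
        simp only [step]
        rw [hδ, hk2, hh]
        rcases hd : (P.δ L.1.state fun i => L.1.tape i L.1.head).2.2 with _ | _
        · have hk0 : k ≠ 0 := by
            rintro rfl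
            exact hex ⟨hd, hh⟩
          obtain ⟨k', rfl⟩ : ∃ k', k = k' + 1 := by
            rcases zero_or_succ_or_isSuccLimit k with rfl | ⟨k', rfl⟩ | hkl
            · exact absurd rfl hk0
            · exact ⟨k', rfl⟩
            · exact absurd hk (not_lt.2 (omega0_le_of_isSuccLimit hkl))
          rw [hh] at hd
          rw [← add_assoc, moveLeft_add_one, moveLeft_add_one, hd]
        · rw [hh] at hd
          rw [add_assoc, hd]
      have hstate : (run α P (t + 1)).state = (step P L.1).state := by
        rw [run_succ]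
        simp only [step]
        rw [hδ]
      have hlt : (step P L.1).head < ω := by
        have := loc_head_lt (P := P) (tau α P lam (t + 1))
        rwa [hloc] at this
      have hin' : InB lam (run α P (t + 1)).head := inB_iff.2 ⟨_, hlt, hhead⟩
      refine ⟨?_, ?_, ?_, ?_⟩
      · intro i k' hk'
        rw [hloc]
        exact htape i k' hk'
      · intro k' hk' h1
        rw [hloc]
        rw [hhead] at h1
        exact ⟨by simpa using h1, hstate⟩
      · intro h1
        exact absurd hin' h1
      · intro _ _
        rw [hloc]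
        exact id
  · -- the head is outside the block
    have htau := tau_succ_out (α := α) (P := P) (t := t) hin
    have hnot : ¬ InB lam (run α P (t + 1)).head := by
      intro h1
      rcases head_succ_cases (α := α) (P := P) t with h2 | h2
      · rcases moveLeft_cases (run α P t).head with h3 | ⟨ν, h3, h4⟩
        · rw [h2, h3] at h1
          exact absurd hl.bot_lt (not_lt.2 h1.1)
        · rw [h2, h4] at h1
          refine hin ?_
          rw [h3]
          exact ⟨h1.1.trans (lt_add_one ν).le,
            (isSuccLimit_add lam isSuccLimit_omega0).add_one_lt h1.2⟩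
      · rw [h2] at h1
        refine hin ⟨?_, (lt_add_one _).trans h1.2⟩
        by_contra hlt
        exact absurd (hl.add_one_lt (not_le.1 hlt)) (not_lt.2 h1.1)
    refine ⟨?_, ?_, ?_, ?_⟩
    · intro i k hk
      rw [htau, ← h.c1 i k hk, run_succ]
      simp only [step]
      rw [Function.update_of_ne]
      intro h1
      exact hin (inB_iff.2 ⟨k, hk, h1.symm⟩)
    · intro k hk h1
      exact absurd (inB_iff.2 ⟨k, hk, h1⟩) hnot
    · intro _
      rw [htau]
      exact h.c3 hin
    · intro h1
      exact absurd h1 hnot

theorem sim_limit (hα : IsSuccLimit α) {lam t : Ordinal.{0}} (hl : IsSuccLimit lam)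
    (hlα : lam + ω < α) (ht : IsSuccLimit t) (h : ∀ s < t, Sim α P lam s) : Sim α P lam t := by
  have hlω : IsSuccLimit (lam + ω) := isSuccLimit_add lam isSuccLimit_omega0
  have hst : (run α P t).state = P.lim := by rw [run_limit ht]; rfl
  have htape : ∀ i μ, (run α P t).tape i μ = infLim t fun s _ => (run α P s).tape i μ := by
    intro i μ; rw [run_limit ht]; rfl
  have hnot0 : ¬ InB lam 0 := fun h1 => absurd hl.bot_lt (not_lt.2 h1.1)
  by_cases hc : Cof α P lam t
  · -- the head visits the block cofinally often
    have hτ := hc.isSuccLimit ht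
    have hloc := loc_limit (P := P) hτ
    have hc1 : ∀ i, ∀ k < ω, (run α P t).tape i (lam + k) =
        (loc P (tau α P lam t)).1.tape i k := by
      intro i k hk
      rw [htape, hloc]
      simp only [limitConfig]
      rw [← hc.infLim_eq fun τ => (loc P τ).1.tape i k]
      exact infLim_congr 0 ht.bot_lt fun r hr _ => (h r hr).c1 i k hk
    by_cases hev : ∃ s < t, ∀ r, s ≤ r → r < t → InB lam (run α P r).head
    · -- it stays in the block from some time on
      obtain ⟨s, hs, hin⟩ := hev
      have hnoout : ¬ ∀ s, s < tau α P lam t → ∃ r, ∃ _ : r < tau α P lam t,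
          s ≤ r ∧ (loc P r).2 := by
        intro hout
        obtain ⟨ρ, hρ, h1, h2⟩ := hout (tau α P lam (s + 1)) (hc.tau_lt (ht.add_one_lt hs))
        obtain ⟨r, hr, rfl, h3⟩ := exists_tau_eq hρ
        have hsr : s + 1 ≤ r := by
          by_contra hlt
          exact absurd (tau_lt (not_le.1 hlt) h3) (not_lt.2 h1)
        have hsr' : s < r := (lt_add_one s).trans_le hsr
        exact (h r hr).c4 h3 ⟨s, hsr', fun r' h4 h5 => hin r' h4 (h5.trans hr)⟩ h2
      have hinf : infLim t (fun s _ => (run α P s).head) =
          lam + infLim (tau α P lam t) fun s _ => (loc P s).1.head := by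
        rw [← hc.infLim_eq fun τ => (loc P τ).1.head,
          ← infLim_const_add lam ht.bot_lt (B := ω) fun r _ => (loc_head_lt _).le]
        refine infLim_congr s hs fun r hr hsr => ?_
        obtain ⟨k, hk, hk2⟩ := inB_iff.1 (hin r hsr hr)
        rw [hk2, ((h r hr).c2 k hk hk2).1]
      have hle : infLim (tau α P lam t) (fun s _ => (loc P s).1.head) ≤ ω :=
        infLim_le fun r _ => (loc_head_lt _).le
      have hne : infLim t (fun s _ => (run α P s).head) ≠ α := by
        rw [hinf]
        refine (lt_of_le_of_lt ?_ hlα).ne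
        gcongr
      have hhead : (run α P t).head =
          lam + infLim (tau α P lam t) fun s _ => (loc P s).1.head := by
        rw [run_limit ht]
        simp only [limitConfig]
        rw [if_neg hne, hinf]
      rcases hle.lt_or_eq with hlt | heq
      · have hlochead : (loc P (tau α P lam t)).1.head =
            infLim (tau α P lam t) fun s _ => (loc P s).1.head := by
          rw [hloc]
          simp only [limitConfig]
          rw [if_neg hlt.ne]
        have hin' : InB lam (run α P t).head := inB_iff.2 ⟨_, hlt, hhead⟩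
        refine ⟨hc1, ?_, fun h1 => absurd hin' h1, ?_⟩
        · intro k hk h1
          rw [hhead] at h1
          refine ⟨?_, ?_⟩
          · rw [hlochead]; simpa using h1
          · rw [hst, hloc]; rfl
        · intro _ _ h1
          rw [hloc] at h1
          rcases h1 with h1 | h1
          · exact absurd h1 hlt.ne
          · exact hnoout h1
      · have hnot : ¬ InB lam (run α P t).head := by
          rw [hhead, heq]
          exact fun h1 => absurd h1.2 (lt_irrefl _)
        refine ⟨hc1, fun k hk h1 => absurd (inB_iff.2 ⟨k, hk, h1⟩) hnot, ?_,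
          fun h1 => absurd h1 hnot⟩
        intro _
        rw [hloc]
        exact Or.inl heq
    · -- it leaves the block cofinally often, so it is at `0` at time `t`
      have h0 : (run α P t).head = 0 := by
        by_contra h0
        exact hev (hc.eventually hα hl ht h0)
      have hnot : ¬ InB lam (run α P t).head := by rwa [h0]
      refine ⟨hc1, fun k hk h1 => absurd (inB_iff.2 ⟨k, hk, h1⟩) hnot, ?_,
        fun h1 => absurd h1 hnot⟩
      intro _
      rw [hloc]
      right
      intro σ hσ
      obtain ⟨s, hs, h1, h2⟩ := exists_tau_eq hσ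
      push Not at hev
      obtain ⟨r, hsr, hr, h3⟩ := hev s hs
      refine ⟨tau α P lam r, hc.tau_lt hr, ?_, (h r hr).c3 h3⟩
      rw [← h1]
      exact tau_mono hsr
  · -- the head does not visit the block from some time `s` on
    unfold Cof at hc
    push Not at hc
    obtain ⟨s, hs, hout⟩ := hc
    have htau : ∀ r, s ≤ r → r ≤ t → tau α P lam r = tau α P lam s := fun r h1 h2 =>
      tau_const h1 fun r' h3 h4 => hout r' h3 (h4.trans_le h2)
    have hts := htau t hs.le le_rfl
    have hloc2 : (loc P (tau α P lam t)).2 := by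
      rw [hts]
      exact (h s hs).c3 (hout s le_rfl hs)
    refine ⟨?_, ?_, fun _ => hloc2, ?_⟩
    · intro i k hk
      rw [htape, hts]
      refine infLim_const s hs fun r hr hsr => ?_
      rw [(h r hr).c1 i k hk, htau r hsr hr.le]
    · intro k hk h1
      obtain ⟨h2, h3⟩ := loc_out hloc2
      rw [h2, h3, hst]
      refine ⟨?_, rfl⟩
      by_contra hk0
      obtain ⟨k', rfl⟩ : ∃ k', k = k' + 1 := by
        rcases zero_or_succ_or_isSuccLimit k with rfl | ⟨k', rfl⟩ | hkl
        · exact absurd rfl hk0
        · exact ⟨k', rfl⟩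
        · exact absurd hk (not_lt.2 (omega0_le_of_isSuccLimit hkl))
      have h0 : (run α P t).head ≠ 0 := by
        rw [h1]
        exact ((hl.bot_lt).trans_le le_self_add).ne'
      have hinf := head_limit ht h0
      rw [h1] at hinf
      have hlt : lam + k' < infLim t fun s _ => (run α P s).head := by
        rw [← hinf, ← add_assoc]
        exact lt_add_one _
      obtain ⟨s', hs', h4⟩ := lt_of_lt_infLim hlt
      have h5 : lam + ω ≤ infLim t fun s _ => (run α P s).head := by
        refine le_infLim (fun r _ => (head_lt hα r).le) ⟨max s s', max_lt hs hs', ?_⟩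
        intro r hr hsr
        by_contra hno
        exact hout r ((le_max_left _ _).trans hsr) hr
          ⟨le_self_add.trans (h4 r hr ((le_max_right _ _).trans hsr)).le, not_le.1 hno⟩
      rw [← hinf] at h5
      have h6 : lam + (k' + 1) < lam + ω := by gcongr
      exact absurd h6 (not_lt.2 h5)
    · rintro h1 ⟨s', hs', h2⟩
      exact absurd (h2 (max s s') (le_max_right _ _) (max_lt hs hs'))
        (hout (max s s') (le_max_left _ _) (max_lt hs hs'))

theorem sim (hα : IsSuccLimit α) {lam : Ordinal.{0}} (hl : IsSuccLimit lam)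
    (hlα : lam + ω < α) (t : Ordinal.{0}) : Sim α P lam t := by
  induction t using limitRecOn with
  | zero =>
    have hnot : ¬ InB lam (run α P 0).head := by
      rw [run_zero]
      exact fun h1 => absurd hl.bot_lt (not_lt.2 h1.1)
    refine ⟨?_, fun k hk h1 => absurd (inB_iff.2 ⟨k, hk, h1⟩) hnot, ?_, fun h1 => absurd h1 hnot⟩
    · intro i k _
      rw [tau_zero, run_zero, loc_zero]
    · intro _
      rw [tau_zero, loc_zero]
      trivial
  | add_one t ih => exact sim_succ hl ih
  | limit t ht ih => exact sim_limit hα hl hlα ht ih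

/-! ### Comparison of a block with the block `[ω, ω + ω)` -/

/-- The block `[lam, lam + ω)` is always behind the block `[ω, ω + ω)`. -/
theorem behind (hα : IsSuccLimit α) (hωα : ω + ω < α) {lam : Ordinal.{0}} (hl : IsSuccLimit lam)
    (hlα : lam + ω < α) (hlω : ω + ω ≤ lam) (t : Ordinal.{0}) :
    tau α P lam t ≤ tau α P ω t ∧
      (ω + ω ≤ (run α P t).head → (run α P t).head < lam + ω → tau α P lam t < tau α P ω t) := by
  have hω : IsSuccLimit (ω : Ordinal.{0}) := isSuccLimit_omega0
  have hlω2 : IsSuccLimit (lam + ω) := isSuccLimit_add lam hω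
  have hωω : IsSuccLimit (ω + ω : Ordinal.{0}) := isSuccLimit_add ω hω
  induction t using limitRecOn with
  | zero =>
    rw [tau_zero, tau_zero, run_zero]
    refine ⟨le_rfl, fun h => ?_⟩
    exact absurd (hωω.bot_lt) (not_lt.2 h)
  | add_one t ih =>
    obtain ⟨ih1, ih2⟩ := ih
    by_cases hin : InB lam (run α P t).head
    · have hlt := ih2 (hlω.trans hin.1) hin.2
      have hnotω : ¬ InB ω (run α P t).head := fun h =>
        absurd h.2 (not_lt.2 (hlω.trans hin.1))
      rw [tau_succ_in hin, tau_succ_out hnotω]
      refine ⟨add_one_le_of_lt hlt, fun h1 h2 => ?_⟩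
      -- the head is still in the block
      have hin' : InB lam (run α P (t + 1)).head := by
        refine ⟨?_, h2⟩
        rcases head_succ_cases (α := α) (P := P) t with h3 | h3
        · rcases moveLeft_cases (run α P t).head with h4 | ⟨ν, h4, h5⟩
          · rw [h3, h4] at h1
            exact absurd hωω.bot_lt (not_lt.2 h1)
          · rw [h3, h5]
            have := hin.1
            rw [h4] at this
            by_contra hlt
            exact absurd (hl.add_one_lt (not_le.1 hlt)) (not_lt.2 this)
        · rw [h3]; exact hin.1.trans (lt_add_one _).le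
      refine lt_of_le_of_ne (add_one_le_of_lt hlt) fun heq => ?_
      have h3 := (sim hα hω hωα t (P := P)).c3 hnotω
      have h4 := (sim hα hl hlα (t + 1) (P := P)).c4 hin' ⟨t, lt_add_one t, fun r h5 h6 => by
        rw [le_antisymm (lt_add_one_iff.1 h6) h5]; exact hin⟩
      rw [tau_succ_in hin, heq] at h4
      exact h4 h3
    · rw [tau_succ_out hin]
      have hmono : tau α P ω t ≤ tau α P ω (t + 1) := tau_mono (lt_add_one t).le
      refine ⟨ih1.trans hmono, fun h1 h2 => lt_of_lt_of_le (ih2 ?_ ?_) hmono⟩
      · rcases head_succ_cases (α := α) (P := P) t with h3 | h3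
        · rcases moveLeft_cases (run α P t).head with h4 | ⟨ν, h4, h5⟩
          · rw [h3, h4] at h1
            exact absurd hωω.bot_lt (not_lt.2 h1)
          · rw [h3, h5] at h1
            rw [h4]
            exact h1.trans (lt_add_one ν).le
        · rw [h3] at h1
          by_contra hlt
          exact absurd (hωω.add_one_lt (not_le.1 hlt)) (not_lt.2 h1)
      · rcases head_succ_cases (α := α) (P := P) t with h3 | h3
        · rcases moveLeft_cases (run α P t).head with h4 | ⟨ν, h4, h5⟩
          · rw [h3, h4] at h1
            exact absurd hωω.bot_lt (not_lt.2 h1)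
          · rw [h3, h5] at h2
            rw [h4]
            exact hlω2.add_one_lt h2
        · rw [h3] at h2
          exact (lt_add_one _).trans h2
  | limit t ht ih =>
    have hle : tau α P lam t ≤ tau α P ω t := by
      by_contra hlt
      obtain ⟨s, hs, h1⟩ := lt_tau_limit ht (not_le.1 hlt)
      exact absurd (h1.trans_le ((ih s hs).1)) (not_lt.2 (tau_le_limit ht hs))
    refine ⟨hle, fun h1 h2 => ?_⟩
    have h0 : (run α P t).head ≠ 0 := (hωω.bot_lt.trans_le h1).ne'
    by_cases hc : Cof α P lam t
    · obtain ⟨s, hs, hin⟩ := hc.eventually hα hl ht h0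
      have hge : lam ≤ (run α P t).head := by
        rw [head_limit ht h0]
        exact le_infLim (fun r _ => (head_lt hα r).le) ⟨s, hs, fun r hr hsr => (hin r hsr hr).1⟩
      have hnotω : ¬ InB ω (run α P t).head := fun h => absurd h.2 (not_lt.2 h1)
      refine lt_of_le_of_ne hle fun heq => ?_
      have h3 := (sim hα hω hωα t (P := P)).c3 hnotω
      have h4 := (sim hα hl hlα t (P := P)).c4 ⟨hge, h2⟩ ⟨s, hs, hin⟩
      rw [heq] at h4
      exact h4 h3
    · unfold Cof at hc
      push Not at hc
      obtain ⟨s, hs, hout⟩ := hc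
      have htau : ∀ r, s ≤ r → r ≤ t → tau α P lam r = tau α P lam s := fun r h1 h2 =>
        tau_const h1 fun r' h3 h4 => hout r' h3 (h4.trans_le h2)
      have hts := htau t hs.le le_rfl
      have hωlt : ω < infLim t fun s _ => (run α P s).head := by
        rw [← head_limit ht h0]
        exact lt_of_lt_of_le (by simp) h1
      obtain ⟨s', hs', h3⟩ := lt_of_lt_infLim hωlt
      -- some time after `s` the head is in `[ω, lam + ω)`
      obtain ⟨r, hsr, hr, h4, h5⟩ : ∃ r, s ≤ r ∧ r < t ∧ ω ≤ (run α P r).head ∧
          (run α P r).head < lam + ω := by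
        by_contra hno
        push Not at hno
        have h6 : lam + ω ≤ infLim t fun s _ => (run α P s).head := by
          refine le_infLim (fun r _ => (head_lt hα r).le) ⟨max s s', max_lt hs hs', ?_⟩
          intro r hr hsr
          exact hno r ((le_max_left _ _).trans hsr) hr
            (h3 r hr ((le_max_right _ _).trans hsr)).le
        rw [← head_limit ht h0] at h6
        exact absurd h2 (not_lt.2 h6)
      rcases lt_or_ge (run α P r).head (ω + ω) with h6 | h6
      · calc tau α P lam t = tau α P lam r := by rw [hts, htau r hsr hr.le]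
          _ ≤ tau α P ω r := (ih r hr).1
          _ < tau α P ω t := tau_lt hr ⟨h4, h6⟩
      · calc tau α P lam t = tau α P lam r := by rw [hts, htau r hsr hr.le]
          _ < tau α P ω r := (ih r hr).2 h6 h5
          _ ≤ tau α P ω t := tau_mono hr.le

theorem MulClosed.isPrincipal (hα : MulClosed α) : IsPrincipal (· * ·) α :=
  fun _ _ ha hb => hα.2 _ ha _ hb

theorem MulClosed.two_lt (hα : MulClosed α) : 2 < α :=
  lt_of_lt_of_le (by exact_mod_cast natCast_lt_omega0 2) hα.1

theorem MulClosed.isSuccLimit (hα : MulClosed α) : IsSuccLimit α :=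
  isSuccLimit_of_isPrincipal_mul hα.two_lt hα.isPrincipal

theorem MulClosed.add_lt (hα : MulClosed α) {μ ν : Ordinal.{0}} (hμ : μ < α) (hν : ν < α) :
    μ + ν < α :=
  isPrincipal_add_of_isPrincipal_mul hα.isPrincipal hα.two_lt.ne' hμ hν

theorem omega_mul_two : (ω : Ordinal.{0}) * 2 = ω + ω := by
  rw [← one_add_one_eq_two, mul_add_one, mul_one]

/-- No cell from `ω + ω` on is reachable. -/
theorem halts_lt (hα : MulClosed α) (hα2 : ω < α) {μ : Ordinal.{0}} (h : HaltsAt α P μ) :
    μ < ω + ω := by
  obtain ⟨t, hst, hlt, rfl⟩ := h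
  by_contra hμ
  have hμ := not_lt.1 hμ
  have hαl := hα.isSuccLimit
  set μ := (run α P t).head with hμdef
  have hμα : μ < α := head_lt hαl t
  have hdec : ω * (μ / ω) + μ % ω = μ := div_add_mod μ ω
  have hmod : μ % ω < ω := mod_lt _ omega0_ne_zero
  have h2 : 2 ≤ μ / ω := by
    rw [← mul_le_iff_le_div omega0_ne_zero, omega_mul_two]
    exact hμ
  have hlω : ω + ω ≤ ω * (μ / ω) := by
    rw [← omega_mul_two]
    gcongr
  have hl : IsSuccLimit (ω * (μ / ω)) := by
    rw [Ordinal.isSuccLimit_iff, isSuccPrelimit_iff_omega0_dvd]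
    refine ⟨?_, dvd_mul_right _ _⟩
    have h00 : (0 : Ordinal.{0}) < ω + ω := omega0_pos.trans_le le_self_add
    exact (h00.trans_le hlω).ne'
  have hle : ω * (μ / ω) ≤ μ := by
    conv_rhs => rw [← hdec]
    exact le_self_add
  have hlα : ω * (μ / ω) + ω < α := hα.add_lt (hle.trans_lt hμα) hα2
  have hωα : ω + ω < α := hα.add_lt hα2 hα2
  have hμlt : μ < ω * (μ / ω) + ω := by
    conv_lhs => rw [← hdec]
    gcongr
  have hb := (behind hαl hωα hl hlα hlω t (P := P)).2 hμ hμlt
  obtain ⟨s, hs, h1, h3⟩ := exists_tau_eq hb
  obtain ⟨k, hk, hk2⟩ := inB_iff.1 h3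
  have h4 := ((sim hαl isSuccLimit_omega0 hωα s (P := P)).c2 k hk hk2).2
  have h5 := ((sim hαl hl hlα t (P := P)).c2 (μ % ω) hmod hdec.symm).2
  refine hlt s hs ?_
  rw [h4, h1, ← h5, hst]

/-! ### The cells `ω + m` are reachable -/

/-- A program which moves right until it is in the limit state `1`, then moves right `m + 1` more
times and halts in the state `m + 2`. -/
def countProg (m : ℕ) : Program where
  n := m + 2
  start := 0
  halt := Fin.last _
  lim := 1
  δ q s := (if q = 0 then 0 else q + 1, s, .right)

theorem countProg_head (m : ℕ) (t : Ordinal.{0}) :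
    (run α (countProg m) (t + 1)).head = (run α (countProg m) t).head + 1 := by
  rw [run_succ]
  rfl

theorem countProg_state (m : ℕ) (t : Ordinal.{0}) :
    (run α (countProg m) (t + 1)).state =
      if (run α (countProg m) t).state = 0 then 0 else (run α (countProg m) t).state + 1 := by
  rw [run_succ]
  rfl

theorem countProg_nat (m k : ℕ) : (run α (countProg m) k).state = 0 ∧
    (run α (countProg m) k).head = k := by
  induction k with
  | zero => rw [Nat.cast_zero, run_zero]; exact ⟨rfl, rfl⟩
  | succ k ih => rw [Nat.cast_succ, countProg_state, countProg_head, ih.1, ih.2]; simp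

theorem countProg_omega (hα2 : ω < α) (m : ℕ) : (run α (countProg m) ω).state = 1 ∧
    (run α (countProg m) ω).head = ω := by
  have h : infLim ω (fun s _ => (run α (countProg m) s).head) = ω := by
    refine Eq.trans (infLim_congr 0 omega0_pos (g := fun s _ => s) fun r hr _ => ?_)
      (infLim_id isSuccLimit_omega0)
    obtain ⟨k, rfl⟩ := lt_omega0.1 hr
    exact (countProg_nat m k).2
  rw [run_limit isSuccLimit_omega0]
  simp only [limitConfig]
  rw [h, if_neg hα2.ne]
  exact ⟨rfl, rfl⟩

theorem countProg_after (hα2 : ω < α) (m k : ℕ) (hk : k ≤ m + 1) :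
    ((run α (countProg m) (ω + k)).state : ℕ) = k + 1 ∧
      (run α (countProg m) (ω + k)).head = ω + k := by
  induction k with
  | zero =>
    rw [Nat.cast_zero, add_zero]
    obtain ⟨h1, h2⟩ := countProg_omega hα2 m
    refine ⟨?_, h2⟩
    rw [h1]
    rfl
  | succ k ih =>
    obtain ⟨h1, h2⟩ := ih (by omega)
    rw [Nat.cast_succ, ← add_assoc, countProg_state, countProg_head, h2]
    refine ⟨?_, rfl⟩
    have hne : (run α (countProg m) (ω + k)).state ≠ 0 := by
      intro h0
      rw [h0] at h1
      exact absurd h1 (by simp)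
    rw [if_neg hne]
    have hlast : (run α (countProg m) (ω + k)).state < Fin.last _ := by
      rw [Fin.lt_def, h1]
      exact (by omega : k + 1 < m + 2)
    rw [Fin.val_add_one_of_lt hlast, h1]

theorem countProg_halts (hα2 : ω < α) (m : ℕ) :
    HaltsAt α (countProg m) (ω + (m + 1 : ℕ)) := by
  refine ⟨ω + (m + 1 : ℕ), ?_, ?_, ?_⟩
  · apply Fin.ext
    rw [(countProg_after hα2 m (m + 1) le_rfl).1]
    rfl
  · intro s hs
    rcases lt_or_ge s ω with h | h
    · obtain ⟨k, rfl⟩ := lt_omega0.1 h
      rw [(countProg_nat m k).1]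
      intro h0
      exact absurd (congrArg Fin.val h0) (by simp [countProg])
    · obtain ⟨k, rfl⟩ := exists_add_of_le h
      have hk : k < (m + 1 : ℕ) := by simpa using hs
      obtain ⟨k, rfl⟩ := lt_omega0.1 (hk.trans (natCast_lt_omega0 _))
      have hk : k < m + 1 := by exact_mod_cast hk
      intro h0
      have := congrArg Fin.val h0
      rw [(countProg_after hα2 m k hk.le).1] at this
      have h3 : (((countProg m).halt : Fin _) : ℕ) = m + 2 := rfl
      omega
  · exact (countProg_after hα2 m (m + 1) le_rfl).2

/-! ### The value of `θ_α` -/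

theorem theta_le (α : Ordinal.{0}) : theta α ≤ α :=
  csSup_le' fun _ h => h.1.le

theorem theta_eq (hα : MulClosed α) (hα2 : ω < α) : theta α = ω * 2 := by
  rw [omega_mul_two]
  apply le_antisymm
  · exact csSup_le' fun μ hμ => (halts_lt hα hα2 hμ.2.choose_spec).le
  · refine le_of_forall_lt fun μ hμ => ?_
    have hω : ω + ω < α := hα.add_lt hα2 hα2
    obtain ⟨m, hm⟩ : ∃ m : ℕ, μ < ω + m := by
      rcases lt_or_ge μ ω with h | h
      · exact ⟨0, by simpa using h⟩
      · obtain ⟨k, rfl⟩ := exists_add_of_le h
        obtain ⟨k, rfl⟩ := lt_omega0.1 (by simpa using hμ : k < ω)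
        exact ⟨k + 1, by gcongr; exact_mod_cast Nat.lt_succ_self k⟩
    have h1 : ω + (m + 1 : ℕ) ≤ theta α := by
      refine le_csSup ⟨α, fun _ hx => hx.1.le⟩ ⟨?_, _, countProg_halts hα2 m⟩
      exact lt_trans (by gcongr; exact natCast_lt_omega0 _) hω
    refine hm.trans_le (le_trans ?_ h1)
    gcongr
    exact Nat.le_succ m

/-- With the literal limit state, `θ_α = ω * 2` for all multiplicatively closed `α > ω`, and the
function `α ↦ θ_α` is monotone. -/
theorem result : (∀ α : Ordinal.{0}, MulClosed α → ω < α → theta α = ω * 2) ∧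
    ∀ α β : Ordinal.{0}, MulClosed α → MulClosed β → α ≤ β → theta α ≤ theta β := by
  refine ⟨fun α hα hα2 => theta_eq hα hα2, fun α β hα hβ h => ?_⟩
  rcases hβ.1.eq_or_lt with hβ2 | hβ2
  · have : α = β := le_antisymm h (hβ2 ▸ hα.1)
    rw [this]
  · rw [theta_eq hβ hβ2]
    rcases hα.1.eq_or_lt with hα2 | hα2
    · refine (theta_le α).trans ?_
      rw [← hα2, omega_mul_two]
      exact le_self_add
    · rw [theta_eq hα hα2]

end Pool.Agent.Results.MP_5db8c7_lc.LiteralLimitStateMonotone
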